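import Mathlib

open Finset Filter Topology

namespace Pool.Agent.Results.MP_498a73_pr.MDSPoisson

noncomputable section

set_option linter.unusedSectionVars false
set_option linter.unusedVariables false

section Basic

variable {F : Type} [Field F] [Fintype F] [DecidableEq F] {n : ℕ}

/-- the first nonzero entry of `x` is one -/
def Nz (x : Fin n → F) : Prop := ∃ i, x i = 1 ∧ ∀ j < i, x j = 0

lemma Nz.ne_zero {x : Fin n → F} (h : Nz x) : x ≠ 0 := by
  rintro rfl
  obtain ⟨i, hi, _⟩ := h
  exact zero_ne_one hi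

lemma Nz.smul_eq {x : Fin n → F} {c : F} (h : Nz x) (h' : Nz (c • x)) : c = 1 := by
  obtain ⟨i, hi, hi'⟩ := h
  obtain ⟨k, hk, hk'⟩ := h'
  rcases lt_trichotomy i k with h1 | h1 | h1
  · have := hk' i h1
    simp [hi] at this
    simp [this] at hk
  · subst h1
    simpa [hi] using hk
  · have := hi' k h1
    simp [this] at hk

lemma exists_nz {x : Fin n → F} (hx : x ≠ 0) : ∃ c : F, c ≠ 0 ∧ Nz (c • x) := by
  have hne : (univ.filter (fun i => x i ≠ 0)).Nonempty := by
    by_contra hcon
    rw [not_nonempty_iff_eq_empty, filter_eq_empty_iff] at hcon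
    apply hx
    ext i
    simpa using hcon (mem_univ i)
  let i := (univ.filter (fun i => x i ≠ 0)).min' hne
  have hi : x i ≠ 0 := by
    have := min'_mem _ hne
    exact (mem_filter.mp this).2
  refine ⟨(x i)⁻¹, inv_ne_zero hi, i, ?_, ?_⟩
  · simp [hi]
  · intro j hj
    have : x j = 0 := by
      by_contra hcon
      have := min'_le (univ.filter (fun i => x i ≠ 0)) j (by simp [hcon])
      exact absurd hj (not_lt.mpr this)
    simp [this]

/-- normalisation -/
def nrm (x : Fin n → F) : Fin n → F := if h : x ≠ 0 then (exists_nz h).choose • x else 0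

lemma nrm_smul {x : Fin n → F} (h : Nz x) {c : F} (hc : c ≠ 0) : nrm (c • x) = x := by
  have h0 : c • x ≠ 0 := smul_ne_zero hc h.ne_zero
  unfold nrm
  rw [dif_pos h0]
  have h1 := (exists_nz h0).choose_spec.2
  rw [smul_smul] at h1 ⊢
  rw [h.smul_eq h1, one_smul]

lemma hn_smul {x : Fin n → F} {c : F} (hc : c ≠ 0) : hammingNorm (c • x) = hammingNorm x := by
  unfold hammingNorm
  congr 1
  ext i
  simp [hc]

open scoped Classical in
/-- normalised nonzero words of weight at most `m` -/
def P (F : Type) [Field F] [Fintype F] [DecidableEq F] (n m : ℕ) : Finset (Fin n → F) :=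
  univ.filter (fun x => Nz x ∧ hammingNorm x ≤ m)

lemma mem_P {m : ℕ} {x : Fin n → F} : x ∈ P F n m ↔ Nz x ∧ hammingNorm x ≤ m := by
  unfold P; simp

open scoped Classical in
/-- nonzero words of weight at most `m` -/
def Z (F : Type) [Field F] [Fintype F] [DecidableEq F] (n m : ℕ) : Finset (Fin n → F) :=
  univ.filter (fun x => x ≠ 0 ∧ hammingNorm x ≤ m)

lemma mem_Z {m : ℕ} {x : Fin n → F} : x ∈ Z F n m ↔ x ≠ 0 ∧ hammingNorm x ≤ m := by
  unfold Z; simp

lemma card_nonzero : (univ.filter (fun c : F => c ≠ 0)).card = Fintype.card F - 1 := by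
  rw [filter_ne' univ (0:F), card_erase_of_mem (mem_univ _), card_univ]

lemma card_Z (m : ℕ) : (Z F n m).card = (Fintype.card F - 1) * (P F n m).card := by
  rw [← card_nonzero (F := F), ← card_product]
  symm
  apply card_bij (fun a _ => a.1 • a.2)
  · rintro ⟨c, x⟩ h
    rw [mem_product, mem_filter, mem_P] at h
    rw [mem_Z]
    exact ⟨smul_ne_zero h.1.2 h.2.1.ne_zero, by rw [hn_smul h.1.2]; exact h.2.2⟩
  · rintro ⟨c, x⟩ h ⟨d, y⟩ h' e
    rw [mem_product, mem_filter, mem_P] at h h'
    simp only at h h' e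
    have hx : x = y := by
      rw [← nrm_smul h.2.1 h.1.2, e, nrm_smul h'.2.1 h'.1.2]
    subst hx
    have : c = d := by
      obtain ⟨i, hi, _⟩ := h.2.1
      have := congrFun e i
      simpa [hi] using this
    rw [this]
  · intro x h
    rw [mem_Z] at h
    obtain ⟨c, hc, hc'⟩ := exists_nz h.1
    refine ⟨(c⁻¹, c • x), ?_, ?_⟩
    · rw [mem_product, mem_filter, mem_P]
      exact ⟨⟨mem_univ _, inv_ne_zero hc⟩, hc', by rw [hn_smul hc]; exact h.2⟩
    · simp [smul_smul, hc]

/-- the support -/
def supp (x : Fin n → F) : Finset (Fin n) := univ.filter (fun i => x i ≠ 0)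

lemma hn_eq (x : Fin n → F) : hammingNorm x = (supp x).card := rfl

lemma card_supp_eq (S : Finset (Fin n)) :
    (univ.filter (fun x : Fin n → F => supp x = S)).card = (Fintype.card F - 1) ^ S.card := by
  have h : (univ.filter (fun x : Fin n → F => supp x = S)) =
      Fintype.piFinset (fun i => if i ∈ S then univ.filter (fun c : F => c ≠ 0) else {0}) := by
    ext x
    rw [mem_filter, Fintype.mem_piFinset]
    simp only [mem_univ, true_and]
    constructor
    · rintro rfl i
      by_cases hi : x i = 0 <;> simp [supp, hi]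
    · intro h
      ext i
      have := h i
      by_cases hi : i ∈ S
      · rw [if_pos hi] at this
        simp only [mem_filter, mem_univ, true_and] at this
        simp [supp, this, hi]
      · rw [if_neg hi, mem_singleton] at this
        simp [supp, this, hi]
  rw [h, Fintype.card_piFinset]
  have : ∀ i : Fin n, (if i ∈ S then univ.filter (fun c : F => c ≠ 0) else {0}).card
      = if i ∈ S then Fintype.card F - 1 else 1 := by
    intro i
    split_ifs
    · exact card_nonzero
    · simp
  simp_rw [this]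
  rw [prod_ite, prod_const, prod_const_one, mul_one]
  congr 2
  ext i; simp

lemma Z_ge (m : ℕ) (hm : 1 ≤ m) : n.choose m * (Fintype.card F - 1) ^ m ≤ (Z F n m).card := by
  have h : (powersetCard m (univ : Finset (Fin n))).biUnion
      (fun S => univ.filter (fun x : Fin n → F => supp x = S)) ⊆ Z F n m := by
    intro x hx
    rw [mem_biUnion] at hx
    obtain ⟨S, hS, hx⟩ := hx
    rw [mem_powersetCard] at hS
    rw [mem_filter] at hx
    rw [mem_Z, hn_eq, hx.2, hS.2]
    refine ⟨?_, le_rfl⟩
    rintro rfl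
    have : S = ∅ := by rw [← hx.2]; simp [supp]
    rw [this] at hS
    simp at hS
    omega
  calc n.choose m * (Fintype.card F - 1) ^ m
      = ((powersetCard m (univ : Finset (Fin n))).biUnion
      (fun S => univ.filter (fun x : Fin n → F => supp x = S))).card := by
        rw [card_biUnion]
        · rw [sum_congr rfl (fun S hS => by rw [card_supp_eq, (mem_powersetCard.mp hS).2]), sum_const,
            card_powersetCard, card_univ, Fintype.card_fin, smul_eq_mul]
        · intro S _ T _ hST
          rw [Function.onFun, disjoint_left]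
          intro x hx hx'
          rw [mem_filter] at hx hx'
          exact hST (hx.2.symm.trans hx'.2)
    _ ≤ _ := card_le_card h

lemma Z_le (m : ℕ) : (Z F n m).card ≤ ∑ w ∈ range (m + 1), n.choose w * (Fintype.card F - 1) ^ w := by
  have h : Z F n m ⊆ (range (m + 1)).biUnion (fun w => (powersetCard w (univ : Finset (Fin n))).biUnion
      (fun S => univ.filter (fun x : Fin n → F => supp x = S))) := by
    intro x hx
    rw [mem_Z, hn_eq] at hx
    rw [mem_biUnion]
    refine ⟨(supp x).card, by rw [mem_range]; omega, ?_⟩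
    rw [mem_biUnion]
    exact ⟨supp x, by simp [mem_powersetCard], by simp⟩
  refine (card_le_card h).trans (card_biUnion_le.trans (sum_le_sum fun w _ => ?_))
  refine card_biUnion_le.trans ?_
  rw [sum_congr rfl (fun S hS => by rw [card_supp_eq, (mem_powersetCard.mp hS).2]), sum_const,
    card_powersetCard, card_univ, Fintype.card_fin, smul_eq_mul]

lemma card_supp_sub (S : Finset (Fin n)) :
    (univ.filter (fun x : Fin n → F => supp x ⊆ S)).card = (Fintype.card F) ^ S.card := by
  have h : (univ.filter (fun x : Fin n → F => supp x ⊆ S)) =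
      Fintype.piFinset (fun i => if i ∈ S then univ else {0}) := by
    ext x
    rw [mem_filter, Fintype.mem_piFinset]
    simp only [mem_univ, true_and]
    constructor
    · intro h i
      by_cases hi : i ∈ S
      · rw [if_pos hi]; exact mem_univ _
      · rw [if_neg hi, mem_singleton]
        by_contra hcon
        exact hi (h (by simp [supp, hcon]))
    · intro h i hi
      by_contra hcon
      have := h i
      rw [if_neg hcon, mem_singleton] at this
      simp [supp, this] at hi
  rw [h, Fintype.card_piFinset]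
  have : ∀ i : Fin n, (if i ∈ S then (univ : Finset F) else {0}).card
      = if i ∈ S then Fintype.card F else 1 := by
    intro i
    split_ifs
    · exact card_univ
    · simp
  simp_rw [this]
  rw [prod_ite, prod_const, prod_const_one, mul_one]
  congr 2
  ext i; simp

end Basic

section Van

variable {F : Type} [Field F] [Fintype F] [DecidableEq F] {n : ℕ}

open Matrix in
lemma card_row (A : Finset (Fin n → F)) (hA : LinearIndependent F (fun a : A => (a : Fin n → F))) :
    (univ.filter (fun r : Fin n → F => ∀ x ∈ A, r ⬝ᵥ x = 0)).card * (Fintype.card F) ^ A.card =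
      (Fintype.card F) ^ n := by
  classical
  let B : Matrix A (Fin n) F := fun a => a.1
  have hrank : B.rank = A.card := by
    have h := LinearIndependent.rank_matrix (M := B) hA
    rw [h, Fintype.card_coe]
  have hk := B.mulVecLin.finrank_range_add_finrank_ker
  have hr : Module.finrank F (LinearMap.range B.mulVecLin) = A.card := hrank
  rw [hr, Module.finrank_pi, Fintype.card_fin] at hk
  have hcard : (univ.filter (fun r : Fin n → F => ∀ x ∈ A, r ⬝ᵥ x = 0)).card
      = Fintype.card (LinearMap.ker B.mulVecLin) := by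
    rw [Fintype.card_subtype]
    congr 1
    ext r
    simp only [mem_filter, mem_univ, true_and, LinearMap.mem_ker, Matrix.mulVecLin_apply]
    constructor
    · intro h
      ext a
      rw [Matrix.mulVec, dotProduct_comm]
      exact h a.1 a.2
    · intro h x hx
      have := congrFun h ⟨x, hx⟩
      rw [Matrix.mulVec, dotProduct_comm] at this
      exact this
  rw [hcard, Module.card_eq_pow_finrank (K := F), ← pow_add, add_comm, hk]

open Matrix in
/-- all rows of `M` are orthogonal to `x` -/
def Van {m : ℕ} (M : Fin m → Fin n → F) (x : Fin n → F) : Prop := ∀ i, M i ⬝ᵥ x = 0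

open scoped Classical in
/-- normalised low-weight words in the kernel of `M` -/
def PM {m : ℕ} (M : Fin m → Fin n → F) : Finset (Fin n → F) := (P F n m).filter (fun x => Van M x)

lemma Van.smul {m : ℕ} {M : Fin m → Fin n → F} {x : Fin n → F} (h : Van M x) (c : F) : Van M (c • x) := by
  intro i
  rw [dotProduct_smul, h i, smul_zero]

open scoped Classical in
lemma card_van (m : ℕ) (A : Finset (Fin n → F)) (hA : LinearIndependent F (fun a : A => (a : Fin n → F))) :
    (univ.filter (fun M : Fin m → Fin n → F => ∀ x ∈ A, Van M x)).card * ((Fintype.card F) ^ m) ^ A.card =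
      ((Fintype.card F) ^ n) ^ m := by
  have h : (univ.filter (fun M : Fin m → Fin n → F => ∀ x ∈ A, Van M x)) =
      Fintype.piFinset (fun _ : Fin m => univ.filter (fun r : Fin n → F => ∀ x ∈ A, dotProduct r x = 0)) := by
    ext M
    rw [mem_filter, Fintype.mem_piFinset]
    simp only [mem_univ, true_and, mem_filter, Van]
    constructor
    · intro h i x hx
      exact h x hx i
    · intro h x hx i
      exact h i x hx
  rw [h, Fintype.card_piFinset, prod_const, card_univ, Fintype.card_fin, ← pow_mul, mul_comm m,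
    pow_mul, ← mul_pow, card_row A hA]

end Van

section KBound

variable {F : Type} [Field F] [Fintype F] [DecidableEq F] {n : ℕ}

/-- exponent of a column -/
def gx {t : ℕ} (b : Fin t → F) : ℕ :=
  (univ.filter (fun a => b a ≠ 0)).card + if ∑ a, b a ≠ 0 then 1 else 0

/-- `t`-tuples of light words with light sum and large union of supports (stored by columns) -/
def Kset (F : Type) [Field F] [Fintype F] [DecidableEq F] (n t m : ℕ) : Finset (Fin n → Fin t → F) :=
  univ.filter (fun w => (∀ a, hammingNorm (fun j => w j a) ≤ m) ∧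
    hammingNorm (fun j => ∑ a, w j a) ≤ m ∧ m + 1 ≤ (univ.filter (fun j => w j ≠ 0)).card)

lemma sum_gx {t : ℕ} (w : Fin n → Fin t → F) :
    ∑ j, gx (w j) = ∑ a, hammingNorm (fun j => w j a) + hammingNorm (fun j => ∑ a, w j a) := by
  unfold gx hammingNorm
  rw [sum_add_distrib]
  congr 1
  · simp_rw [card_filter]
    exact sum_comm
  · rw [card_filter]

/-- generating function of nonzero columns -/
def Acol (F : Type) [Field F] [Fintype F] [DecidableEq F] (t : ℕ) (y : ℝ) : ℝ :=
  ∑ b ∈ univ.filter (fun b : Fin t → F => b ≠ 0), (y⁻¹) ^ gx b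

lemma Acol_nonneg {t : ℕ} {y : ℝ} (hy : 0 ≤ y) : 0 ≤ Acol F t y :=
  sum_nonneg fun _ _ => pow_nonneg (inv_nonneg.mpr hy) _

lemma gx_zero {t : ℕ} : gx (0 : Fin t → F) = 0 := by simp [gx]

lemma sum_fixed_supp {t : ℕ} (y : ℝ) (S : Finset (Fin n)) :
    ∑ w ∈ univ.filter (fun w : Fin n → Fin t → F => univ.filter (fun j => w j ≠ 0) = S),
      ∏ j, (y⁻¹) ^ gx (w j) = Acol F t y ^ S.card := by
  have h : univ.filter (fun w : Fin n → Fin t → F => univ.filter (fun j => w j ≠ 0) = S) =
      Fintype.piFinset (fun j => if j ∈ S then univ.filter (fun b : Fin t → F => b ≠ 0) else {0}) := by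
    ext w
    rw [mem_filter, Fintype.mem_piFinset]
    simp only [mem_univ, true_and]
    constructor
    · rintro rfl i
      by_cases hi : w i = 0 <;> simp [hi]
    · intro h
      ext i
      have := h i
      by_cases hi : i ∈ S
      · rw [if_pos hi] at this
        simp only [mem_filter, mem_univ, true_and] at this
        simp [this, hi]
      · rw [if_neg hi, mem_singleton] at this
        simp [this, hi]
  rw [h]
  rw [← prod_univ_sum (fun j => if j ∈ S then univ.filter (fun b : Fin t → F => b ≠ 0) else {0})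
    (fun _ b => (y⁻¹) ^ gx b)]
  have : ∀ j : Fin n, ∑ b ∈ (if j ∈ S then univ.filter (fun b : Fin t → F => b ≠ 0) else {0}),
      (y⁻¹) ^ gx b = if j ∈ S then Acol F t y else 1 := by
    intro j
    split_ifs
    · rfl
    · simp [gx_zero]
  simp_rw [this]
  rw [prod_ite, prod_const, prod_const_one, mul_one]
  congr 2
  ext i; simp

lemma Kset_le {t m : ℕ} {y : ℝ} (hy : 1 ≤ y) :
    ((Kset F n t m).card : ℝ) ≤ y ^ ((t + 1) * m) *
      ∑ u ∈ Icc (m + 1) n, (n.choose u : ℝ) * Acol F t y ^ u := by
  have hy0 : 0 < y := by linarith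
  have h1 : ((Kset F n t m).card : ℝ) ≤ ∑ w ∈ Kset F n t m, y ^ ((t + 1) * m) * ∏ j, (y⁻¹) ^ gx (w j) := by
    rw [card_eq_sum_ones, Nat.cast_sum]
    apply sum_le_sum
    intro w hw
    unfold Kset at hw
    rw [mem_filter] at hw
    rw [prod_pow_eq_pow_sum, sum_gx, inv_pow]
    have h2 : ∑ a, hammingNorm (fun j => w j a) + hammingNorm (fun j => ∑ a, w j a) ≤ (t + 1) * m := by
      have h3 : ∑ a, hammingNorm (fun j => w j a) ≤ ∑ _a : Fin t, m := sum_le_sum fun a _ => hw.2.1 a
      rw [sum_const, card_univ, Fintype.card_fin, smul_eq_mul] at h3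
      have h4 := hw.2.2.1
      rw [add_mul, one_mul]
      exact add_le_add h3 h4
    rw [← div_eq_mul_inv, Nat.cast_one, le_div_iff₀ (by positivity), one_mul]
    exact pow_le_pow_right₀ hy h2
  refine h1.trans ?_
  rw [← mul_sum]
  apply mul_le_mul_of_nonneg_left _ (by positivity)
  have h2 : ∑ w ∈ Kset F n t m, ∏ j, (y⁻¹) ^ gx (w j) ≤
      ∑ S ∈ (univ : Finset (Finset (Fin n))).filter (fun S => m + 1 ≤ S.card),
        ∑ w ∈ univ.filter (fun w : Fin n → Fin t → F => univ.filter (fun j => w j ≠ 0) = S),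
          ∏ j, (y⁻¹) ^ gx (w j) := by
    rw [← sum_fiberwise_of_maps_to (s := Kset F n t m)
      (t := (univ : Finset (Finset (Fin n))).filter (fun S => m + 1 ≤ S.card))
      (g := fun w => univ.filter (fun j => w j ≠ 0))]
    · apply sum_le_sum
      intro S _
      apply sum_le_sum_of_subset_of_nonneg
      · intro w hw
        rw [mem_filter] at hw ⊢
        exact ⟨mem_univ _, hw.2⟩
      · intro w _ _
        exact prod_nonneg fun j _ => by positivity
    · intro w hw
      unfold Kset at hw
      rw [mem_filter] at hw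
      rw [mem_filter]
      exact ⟨mem_univ _, hw.2.2.2⟩
  refine h2.trans ?_
  simp_rw [sum_fixed_supp]
  have h3 : (univ : Finset (Finset (Fin n))).filter (fun S => m + 1 ≤ S.card) =
      (Icc (m + 1) n).biUnion (fun u => powersetCard u univ) := by
    ext S
    simp only [mem_filter, mem_univ, true_and, mem_biUnion, mem_Icc, mem_powersetCard, subset_univ]
    constructor
    · intro h
      exact ⟨S.card, ⟨h, by simpa using card_le_univ S⟩, rfl⟩
    · rintro ⟨u, hu, rfl⟩
      exact hu.1
  rw [h3, sum_biUnion]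
  · apply le_of_eq
    apply sum_congr rfl
    intro u _
    rw [sum_congr rfl (fun S hS => by rw [(mem_powersetCard.mp hS).2]), sum_const, card_powersetCard,
      card_univ, Fintype.card_fin, nsmul_eq_mul]
  · intro u _ v _ huv
    rw [Function.onFun, disjoint_left]
    intro S hS hS'
    rw [mem_powersetCard] at hS hS'
    exact huv (hS.2.symm.trans hS'.2)

lemma card_zero_sum {t : ℕ} (E : Finset (Fin t)) (hE : E.Nonempty) :
    (univ.filter (fun b : Fin t → F => supp b ⊆ E ∧ ∑ a, b a = 0)).card ≤ (Fintype.card F) ^ (E.card - 1) := by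
  obtain ⟨a0, ha0⟩ := hE
  rw [← card_erase_of_mem ha0, ← card_supp_sub]
  apply card_le_card_of_injOn (fun b => Function.update b a0 0)
  · intro b hb
    rw [mem_coe, mem_filter] at hb
    rw [mem_coe, mem_filter]
    refine ⟨mem_univ _, ?_⟩
    intro i hi
    simp only [supp, mem_filter, mem_univ, true_and] at hi
    by_cases h : i = a0
    · subst h; simp at hi
    · rw [Function.update_of_ne h] at hi
      rw [mem_erase]
      exact ⟨h, hb.2.1 (by simp [supp, hi])⟩
  · intro b hb b' hb' e
    rw [mem_coe, mem_filter] at hb hb'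
    simp only at e
    have h1 : ∀ a, a ≠ a0 → b a = b' a := by
      intro a ha
      have := congrFun e a
      rwa [Function.update_of_ne ha, Function.update_of_ne ha] at this
    have h2 := hb.2.2
    have h3 := hb'.2.2
    rw [← add_sum_erase _ _ (mem_univ a0)] at h2 h3
    have h4 : ∑ x ∈ univ.erase a0, b x = ∑ x ∈ univ.erase a0, b' x :=
      sum_congr rfl fun a ha => h1 a (ne_of_mem_erase ha)
    rw [h4] at h2
    have h5 : b a0 = b' a0 := by
      have := h2.trans h3.symm
      exact add_right_cancel this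
    ext a
    by_cases h : a = a0
    · rw [h, h5]
    · exact h1 a h

lemma Acol_le {t : ℕ} {z : ℝ} (hz : 1 ≤ z) :
    Acol F t ((Fintype.card F : ℝ) / z) ≤ (Fintype.card F : ℝ)⁻¹ * (z ^ (t + 1) + 2 ^ (t + 1) * z ^ t) := by
  set q : ℝ := (Fintype.card F : ℝ) with hq
  have hq0 : 0 < q := by rw [hq]; exact_mod_cast Fintype.card_pos
  have hz0 : 0 < z := by linarith
  unfold Acol
  rw [← sum_fiberwise_of_maps_to (s := univ.filter (fun b : Fin t → F => b ≠ 0))
      (t := (univ : Finset (Finset (Fin t)))) (g := fun b => supp b) (fun _ _ => mem_univ _)]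
  have h1 : ∀ E ∈ (univ : Finset (Finset (Fin t))),
      ∑ b ∈ (univ.filter (fun b : Fin t → F => b ≠ 0)).filter (fun b => supp b = E),
        ((q / z)⁻¹) ^ gx b ≤ q⁻¹ * (2 * z ^ t + if E = univ then z ^ (t + 1) else 0) := by
    intro E _
    by_cases hE : E.Nonempty
    · have hE1 : 1 ≤ E.card := hE.card_pos
      have hEt : E.card ≤ t := by simpa using card_le_univ E
      have e1 : ∑ b ∈ (univ.filter (fun b : Fin t → F => b ≠ 0)).filter (fun b => supp b = E),
        ((q / z)⁻¹) ^ gx b ≤ ∑ b ∈ univ.filter (fun b : Fin t → F => supp b ⊆ E ∧ ∑ a, b a = 0),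
          ((q / z)⁻¹) ^ E.card + ∑ b ∈ univ.filter (fun b : Fin t → F => supp b ⊆ E),
          ((q / z)⁻¹) ^ (E.card + 1) := by
        rw [← sum_filter_add_sum_filter_not _ (fun b : Fin t → F => ∑ a, b a = 0)]
        apply add_le_add
        · apply le_trans (le_of_eq _) (sum_le_sum_of_subset_of_nonneg (s := ((univ.filter
            (fun b : Fin t → F => b ≠ 0)).filter (fun b => supp b = E)).filter
              (fun b => ∑ a, b a = 0)) _ (fun _ _ _ => by positivity))
          · apply sum_congr rfl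
            intro b hb
            simp only [mem_filter, mem_univ, true_and] at hb
            congr 1
            unfold gx
            rw [if_neg (not_not.mpr hb.2), add_zero]
            rw [← hb.1.2]; rfl
          · intro b hb
            simp only [mem_filter, mem_univ, true_and] at hb ⊢
            exact ⟨hb.1.2.le, hb.2⟩
        · apply le_trans (le_of_eq _) (sum_le_sum_of_subset_of_nonneg (s := ((univ.filter
            (fun b : Fin t → F => b ≠ 0)).filter (fun b => supp b = E)).filter
              (fun b => ¬ ∑ a, b a = 0)) _ (fun _ _ _ => by positivity))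
          · apply sum_congr rfl
            intro b hb
            simp only [mem_filter, mem_univ, true_and] at hb
            congr 1
            unfold gx
            rw [if_pos hb.2]
            rw [← hb.1.2]; rfl
          · intro b hb
            simp only [mem_filter, mem_univ, true_and] at hb ⊢
            exact hb.1.2.le
      refine e1.trans ?_
      rw [sum_const, sum_const, nsmul_eq_mul, nsmul_eq_mul, card_supp_sub]
      have e2 : ((univ.filter (fun b : Fin t → F => supp b ⊆ E ∧ ∑ a, b a = 0)).card : ℝ)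
          ≤ q ^ (E.card - 1) := by
        rw [hq]; exact_mod_cast card_zero_sum E hE
      have e3 : ((univ.filter (fun b : Fin t → F => supp b ⊆ E ∧ ∑ a, b a = 0)).card : ℝ)
          * ((q / z)⁻¹) ^ E.card ≤ q⁻¹ * z ^ E.card := by
        calc _ ≤ q ^ (E.card - 1) * ((q / z)⁻¹) ^ E.card :=
              mul_le_mul_of_nonneg_right e2 (by positivity)
          _ = q⁻¹ * z ^ E.card := by
            obtain ⟨e, he⟩ : ∃ e, E.card = e + 1 := ⟨E.card - 1, by omega⟩
            rw [he, inv_div, div_pow, Nat.add_sub_cancel]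
            field_simp
            ring
      have e4 : ((Fintype.card F ^ E.card : ℕ) : ℝ) * ((q / z)⁻¹) ^ (E.card + 1)
          = q⁻¹ * z ^ (E.card + 1) := by
        push_cast
        rw [← hq, inv_div, div_pow]
        field_simp
        ring
      rw [e4]
      refine (add_le_add_left e3 _).trans ?_
      rw [← mul_add]
      apply mul_le_mul_of_nonneg_left _ (by positivity)
      split_ifs with h
      · subst h
        rw [card_univ, Fintype.card_fin]
        have : 0 < z ^ t := by positivity
        linarith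
      · have hlt : E.card < t := by
          rcases lt_or_eq_of_le hEt with h' | h'
          · exact h'
          · exact absurd ((card_eq_iff_eq_univ E).mp (by rw [h', Fintype.card_fin])) h
        have h5 : z ^ E.card ≤ z ^ t := pow_le_pow_right₀ hz hEt
        have h6 : z ^ (E.card + 1) ≤ z ^ t := pow_le_pow_right₀ hz hlt
        linarith
    · rw [not_nonempty_iff_eq_empty] at hE
      have : (univ.filter (fun b : Fin t → F => b ≠ 0)).filter (fun b => supp b = E) = ∅ := by
        rw [filter_eq_empty_iff]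
        intro b hb hb'
        rw [mem_filter] at hb
        apply hb.2
        rw [hE] at hb'
        ext i
        by_contra hcon
        have : i ∈ supp b := by simpa [supp] using hcon
        rw [hb'] at this
        simp at this
      rw [this, sum_empty]
      apply mul_nonneg (by positivity)
      apply add_nonneg (by positivity)
      split_ifs <;> positivity
  refine (sum_le_sum h1).trans ?_
  rw [← mul_sum]
  apply mul_le_mul_of_nonneg_left _ (by positivity)
  rw [sum_add_distrib, sum_ite_eq' univ univ, if_pos (mem_univ _), sum_const, card_univ,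
    Fintype.card_finset, Fintype.card_fin, nsmul_eq_mul]
  push_cast
  rw [pow_succ 2 t]
  linarith

end KBound

section BadSets

variable {F : Type} [Field F] [Fintype F] [DecidableEq F] {n : ℕ}

open scoped Classical in
/-- independent `s`-subsets of `P` whose span contains a further element of `P` -/
def Bad (F : Type) [Field F] [Fintype F] [DecidableEq F] (n m s : ℕ) : Finset (Finset (Fin n → F)) :=
  ((P F n m).powersetCard s).filter (fun J => LinearIndependent F (fun a : J => (a : Fin n → F)) ∧
    ∃ y ∈ P F n m, y ∉ J ∧ y ∈ Submodule.span F (J : Set (Fin n → F)))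

/-- crowded pairs -/
def CP (F : Type) [Field F] [Fintype F] [DecidableEq F] (n m : ℕ) : Finset ((Fin n → F) × (Fin n → F)) :=
  (P F n m ×ˢ P F n m).filter (fun p => p.1 ≠ p.2 ∧ (supp p.1 ∪ supp p.2).card ≤ m)

open scoped Classical in
/-- normalised version of `Kset` -/
def Kn (F : Type) [Field F] [Fintype F] [DecidableEq F] (n t m : ℕ) : Finset (Fin n → Fin t → F) :=
  (Kset F n t m).filter (fun w => Nz (fun j => ∑ a, w j a))

lemma Kn_le (t m : ℕ) : (Fintype.card F - 1) * (Kn F n t m).card ≤ (Kset F n t m).card := by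
  classical
  rw [← card_nonzero (F := F), ← card_product]
  apply card_le_card_of_injOn (fun a => fun j b => a.1 * a.2 j b)
  · rintro ⟨c, w⟩ h
    rw [mem_coe, mem_product, mem_filter] at h
    unfold Kn Kset at h
    rw [mem_filter, mem_filter] at h
    have hc := h.1.2
    simp only at hc h
    rw [mem_coe]
    unfold Kset
    rw [mem_filter]
    refine ⟨mem_univ _, ?_, ?_, ?_⟩
    · intro a
      have : (fun j => c * w j a) = c • (fun j => w j a) := by ext j; simp
      simp only [this]
      rw [hn_smul hc]; exact h.2.1.2.1 a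
    · have : (fun j => ∑ a, c * w j a) = c • (fun j => ∑ a, w j a) := by
        ext j; simp [mul_sum]
      simp only [this]
      rw [hn_smul hc]; exact h.2.1.2.2.1
    · convert h.2.1.2.2.2 using 2
      ext j
      simp only [mem_filter, mem_univ, true_and, ne_eq]
      rw [not_iff_not]
      constructor
      · intro h1; ext b
        have := congrFun h1 b
        simpa [hc] using this
      · intro h1; ext b
        simp [h1]
  · rintro ⟨c, w⟩ h ⟨d, w'⟩ h' e
    rw [mem_coe, mem_product, mem_filter] at h h'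
    unfold Kn at h h'
    rw [mem_filter] at h h'
    simp only at h h' e
    have e1 : c • (fun j => ∑ a, w j a) = d • (fun j => ∑ a, w' j a) := by
      ext j
      have := congrFun e j
      simp only [Pi.smul_apply, smul_eq_mul, mul_sum]
      exact sum_congr rfl fun a _ => congrFun this a
    have e2 : (fun j => ∑ a, w j a) = (fun j => ∑ a, w' j a) := by
      rw [← nrm_smul h.2.2 h.1.2, e1, nrm_smul h'.2.2 h'.1.2]
    have e3 : c = d := by
      rw [← e2] at e1
      obtain ⟨i, hi, _⟩ := h.2.2
      have := congrFun e1 i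
      simp only [Pi.smul_apply, smul_eq_mul] at this
      simp only at hi
      rw [hi, mul_one, mul_one] at this
      exact this
    subst e3
    have e4 : w = w' := by
      ext j b
      have := congrFun (congrFun e j) b
      exact mul_left_cancel₀ h.1.2 this
    rw [e4]

lemma CP_le {m : ℕ} (hm : m ≤ n) :
    (Fintype.card F - 1) ^ 2 * (CP F n m).card ≤ n.choose m * (Fintype.card F ^ m) ^ 2 := by
  let N : Finset (Fin n) → Finset (Fin n → F) := fun U => (P F n m).filter (fun x => supp x ⊆ U)
  have hN : ∀ U : Finset (Fin n), (Fintype.card F - 1) * (N U).card ≤ Fintype.card F ^ U.card := by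
    intro U
    rw [← card_nonzero (F := F), ← card_product, ← card_supp_sub]
    apply card_le_card_of_injOn (fun a => a.1 • a.2)
    · rintro ⟨c, x⟩ h
      rw [mem_coe, mem_product, mem_filter, mem_filter] at h
      rw [mem_coe, mem_filter]
      refine ⟨mem_univ _, ?_⟩
      intro i hi
      apply h.2.2
      simp only [supp, mem_filter, mem_univ, true_and, Pi.smul_apply, smul_eq_mul] at hi ⊢
      exact right_ne_zero_of_mul hi
    · rintro ⟨c, x⟩ h ⟨d, y⟩ h' e
      rw [mem_coe, mem_product, mem_filter, mem_filter, mem_P] at h h'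
      simp only at h h' e
      have hx : x = y := by
        rw [← nrm_smul h.2.1.1 h.1.2, e, nrm_smul h'.2.1.1 h'.1.2]
      subst hx
      have : c = d := by
        obtain ⟨i, hi, _⟩ := h.2.1.1
        have := congrFun e i
        simpa [hi] using this
      rw [this]
  have hsub : CP F n m ⊆ (powersetCard m (univ : Finset (Fin n))).biUnion (fun U => N U ×ˢ N U) := by
    rintro ⟨x, y⟩ h
    unfold CP at h
    rw [mem_filter, mem_product] at h
    simp only at h
    obtain ⟨U, hU, hU'⟩ := exists_superset_card_eq h.2.2 (by simpa using hm : m ≤ Fintype.card (Fin n))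
    rw [mem_biUnion]
    refine ⟨U, by simp [mem_powersetCard, hU'], ?_⟩
    rw [mem_product, mem_filter, mem_filter]
    exact ⟨⟨h.1.1, subset_union_left.trans hU⟩, ⟨h.1.2, subset_union_right.trans hU⟩⟩
  calc (Fintype.card F - 1) ^ 2 * (CP F n m).card
      ≤ (Fintype.card F - 1) ^ 2 * ∑ U ∈ powersetCard m (univ : Finset (Fin n)), (N U ×ˢ N U).card :=
        Nat.mul_le_mul_left _ ((card_le_card hsub).trans card_biUnion_le)
    _ = ∑ U ∈ powersetCard m (univ : Finset (Fin n)), ((Fintype.card F - 1) * (N U).card) ^ 2 := by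
        rw [mul_sum]
        apply sum_congr rfl
        intro U _
        rw [card_product]; ring
    _ ≤ ∑ U ∈ powersetCard m (univ : Finset (Fin n)), (Fintype.card F ^ m) ^ 2 := by
        apply sum_le_sum
        intro U hU
        have := hN U
        rw [(mem_powersetCard.mp hU).2] at this
        exact Nat.pow_le_pow_left this 2
    _ = _ := by
        rw [sum_const, card_powersetCard, card_univ, Fintype.card_fin, smul_eq_mul]

lemma Bad_le (m s : ℕ) : (Bad F n m s).card ≤ (CP F n m).card * (P F n m).card.choose (s - 2) +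
    ∑ t ∈ Icc 2 s, (Kn F n t m).card * (P F n m).card.choose (s - t) := by
  classical
  have hsub : Bad F n m s ⊆
      ((CP F n m ×ˢ (P F n m).powersetCard (s - 2)).image (fun p => {p.1.1, p.1.2} ∪ p.2)) ∪
      (Icc 2 s).biUnion (fun t => (Kn F n t m ×ˢ (P F n m).powersetCard (s - t)).image
        (fun p => (univ.image (fun a => nrm (fun j => p.1 j a))) ∪ p.2)) := by
    intro J hJ
    unfold Bad at hJ
    rw [mem_filter, mem_powersetCard] at hJ
    obtain ⟨⟨hJP, hJs⟩, hind, y, hyP, hyJ, hy⟩ := hJ
    rw [Submodule.mem_span_finset] at hy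
    obtain ⟨f, hf, hfy⟩ := hy
    set I := J.filter (fun a => f a ≠ 0) with hI
    have hIJ : I ⊆ J := filter_subset _ _
    have hfy' : ∑ a ∈ I, f a • a = y := by
      rw [← hfy, hI, sum_filter]
      apply sum_congr rfl
      intro a _
      split_ifs with h
      · rfl
      · rw [not_not.mp h, zero_smul]
    have hyN := (mem_P.mp hyP).1
    have hI2 : 2 ≤ I.card := by
      by_contra hcon
      have hc : I.card = 0 ∨ I.card = 1 := by omega
      rcases hc with hc | hc
      · rw [card_eq_zero] at hc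
        rw [hc, sum_empty] at hfy'
        exact hyN.ne_zero hfy'.symm
      · rw [card_eq_one] at hc
        obtain ⟨a, ha⟩ := hc
        rw [ha, sum_singleton] at hfy'
        have haI : a ∈ I := by rw [ha]; simp
        have haP := (mem_P.mp (hJP (hIJ haI))).1
        rw [← hfy'] at hyN
        rw [haP.smul_eq hyN, one_smul] at hfy'
        exact hyJ (hfy' ▸ hIJ haI)
    have hIs : I.card ≤ s := by rw [← hJs]; exact card_le_card hIJ
    rw [mem_union]
    by_cases hcr : ∃ a ∈ I, ∃ b ∈ I, a ≠ b ∧ (supp a ∪ supp b).card ≤ m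
    · left
      obtain ⟨a, ha, b, hb, hab, hcard⟩ := hcr
      rw [mem_image]
      refine ⟨((a, b), J \ {a, b}), ?_, ?_⟩
      · rw [mem_product, mem_powersetCard]
        refine ⟨?_, sdiff_subset.trans hJP, ?_⟩
        · unfold CP
          rw [mem_filter, mem_product]
          exact ⟨⟨hJP (hIJ ha), hJP (hIJ hb)⟩, hab, hcard⟩
        · have hsub2 : ({a, b} : Finset (Fin n → F)) ⊆ J := by
            intro x hx
            rw [mem_insert, mem_singleton] at hx
            rcases hx with rfl | rfl
            · exact hIJ ha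
            · exact hIJ hb
          simp only
          rw [card_sdiff_of_subset hsub2, hJs, card_pair hab]
      · simp only
        apply union_sdiff_of_subset
        intro x hx
        rw [mem_insert, mem_singleton] at hx
        rcases hx with rfl | rfl
        · exact hIJ ha
        · exact hIJ hb
    · right
      push Not at hcr
      rw [mem_biUnion]
      refine ⟨I.card, by rw [mem_Icc]; exact ⟨hI2, hIs⟩, ?_⟩
      rw [mem_image]
      let e := I.equivFin.symm
      let w : Fin n → Fin I.card → F := fun j a => f (e a) * (e a : Fin n → F) j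
      have hcol : ∀ a, (fun j => w j a) = f (e a) • (e a : Fin n → F) := by
        intro a; ext j; simp [w]
      have hfe : ∀ a, f (e a) ≠ 0 := fun a => (mem_filter.mp (e a).2).2
      have heP : ∀ a, (e a : Fin n → F) ∈ P F n m := fun a => hJP (hIJ (e a).2)
      have hsum : (fun j => ∑ a, w j a) = y := by
        ext j
        rw [← hfy', Finset.sum_apply]
        rw [← sum_coe_sort I (fun a => (f a • a) j)]
        rw [← e.sum_comp (fun a : I => (f a • (a : Fin n → F)) j)]
        rfl
      have himg : univ.image (fun a => nrm (fun j => w j a)) = I := by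
        ext x
        rw [mem_image]
        constructor
        · rintro ⟨a, _, rfl⟩
          rw [hcol, nrm_smul (mem_P.mp (heP a)).1 (hfe a)]
          exact (e a).2
        · intro hx
          refine ⟨e.symm ⟨x, hx⟩, mem_univ _, ?_⟩
          rw [hcol, nrm_smul (mem_P.mp (heP _)).1 (hfe _)]
          simp
      refine ⟨(w, J \ I), ?_, ?_⟩
      · rw [mem_product, mem_powersetCard]
        refine ⟨?_, sdiff_subset.trans hJP, ?_⟩
        · unfold Kn Kset
          rw [mem_filter, mem_filter]
          refine ⟨⟨mem_univ _, ?_, ?_, ?_⟩, ?_⟩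
          · intro a
            simp only [hcol]
            rw [hn_smul (hfe a)]
            exact (mem_P.mp (heP a)).2
          · simp only [hsum]
            exact (mem_P.mp hyP).2
          · obtain ⟨a, b, hab⟩ : ∃ a b : Fin I.card, a ≠ b := by
              refine ⟨⟨0, by omega⟩, ⟨1, by omega⟩, ?_⟩
              simp
            have h1 := hcr (e a) (e a).2 (e b) (e b).2 (by
              intro h
              exact hab (e.injective (Subtype.ext h)))
            refine le_trans h1 (card_le_card ?_)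
            intro j hj
            rw [mem_union] at hj
            simp only [supp, mem_filter, mem_univ, true_and] at hj ⊢
            intro h0
            rcases hj with hj | hj
            · have := congrFun h0 a
              simp only [w, Pi.zero_apply] at this
              exact mul_ne_zero (hfe a) hj this
            · have := congrFun h0 b
              simp only [w, Pi.zero_apply] at this
              exact mul_ne_zero (hfe b) hj this
          · simp only [hsum]
            exact hyN
        · simp only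
          rw [card_sdiff_of_subset hIJ, hJs]
      · simp only
        rw [himg]
        exact union_sdiff_of_subset hIJ
  refine (card_le_card hsub).trans ((card_union_le _ _).trans (add_le_add ?_ ?_))
  · refine card_image_le.trans ?_
    rw [card_product, card_powersetCard]
  · refine card_biUnion_le.trans (sum_le_sum fun t _ => ?_)
    refine card_image_le.trans ?_
    rw [card_product, card_powersetCard]

lemma Bad_one (s : ℕ) : Bad F n 1 s = ∅ := by
  classical
  unfold Bad
  rw [filter_eq_empty_iff]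
  rintro J hJ ⟨_, y, hy, hyJ, hys⟩
  rw [mem_powersetCard] at hJ
  have hsing : ∀ x ∈ P F n 1, ∃ i, x = Pi.single i 1 := by
    intro x hx
    rw [mem_P] at hx
    obtain ⟨⟨i, hi, _⟩, hw⟩ := hx
    refine ⟨i, ?_⟩
    ext j
    by_cases hj : j = i
    · rw [hj, hi, Pi.single_eq_same]
    · rw [Pi.single_eq_of_ne hj]
      by_contra hcon
      have : ({i, j} : Finset (Fin n)) ⊆ supp x := by
        intro l hl
        rw [mem_insert, mem_singleton] at hl
        rcases hl with rfl | rfl
        · simp [supp, hi]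
        · simp [supp, hcon]
      have h2 := card_le_card this
      rw [card_pair (Ne.symm hj)] at h2
      rw [hn_eq] at hw
      omega
  obtain ⟨i, rfl⟩ := hsing y hy
  have hle : Submodule.span F (J : Set (Fin n → F)) ≤ LinearMap.ker (LinearMap.proj i : (Fin n → F) →ₗ[F] F) := by
    rw [Submodule.span_le]
    intro x hx
    obtain ⟨l, rfl⟩ := hsing x (hJ.1 hx)
    have hli : l ≠ i := by
      rintro rfl
      exact hyJ hx
    simp [hli.symm]
  have := hle hys
  simp at this

end BadSets

section Bonf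

variable {F : Type} [Field F] [Fintype F] [DecidableEq F] {n m : ℕ}

/-- linear independence of a finite set -/
def Ind (A : Finset (Fin n → F)) : Prop := LinearIndependent F (fun a : A => (a : Fin n → F))

lemma Ind.mono {A B : Finset (Fin n → F)} (h : Ind B) (hAB : A ⊆ B) : Ind A := by
  unfold Ind at h ⊢
  have h2 : LinearIndepOn F id (B : Set (Fin n → F)) := h
  have h3 : LinearIndepOn F id (A : Set (Fin n → F)) := h2.mono (by exact_mod_cast hAB)
  exact h3

open scoped Classical in
/-- number of independent `r`-subsets of `PM M` -/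
def ir (r : ℕ) (M : Fin m → Fin n → F) : ℕ := (((PM M).powersetCard r).filter Ind).card

open scoped Classical in
/-- the error term -/
def errM (R : ℕ) (M : Fin m → Fin n → F) : ℝ :=
  ∑ s ∈ range (2 * R + 1), ∑ A ∈ Bad F n m s, if (∀ x ∈ A, Van M x) then 2 * (2:ℝ) ^ s else 0

lemma errM_nonneg (R : ℕ) (M : Fin m → Fin n → F) : 0 ≤ errM R M := by
  unfold errM
  apply sum_nonneg; intro _ _
  apply sum_nonneg; intro _ _
  split_ifs <;> positivity

lemma exists_bad {M : Fin m → Fin n → F} {R : ℕ} {A Z' : Finset (Fin n → F)} (hA : A ⊆ PM M) (hAi : Ind A)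
    (hAR : A.card ≤ R) (hZ : Z' ⊆ PM M) (hZi : ¬ Ind Z') (hZR : Z'.card ≤ R) :
    ∃ s ∈ range (2 * R + 1), ∃ A' ∈ Bad F n m s, A ⊆ A' ∧ ∀ x ∈ A', Van M x := by
  classical
  have h1 : LinearIndepOn F id (A : Set (Fin n → F)) := hAi
  obtain ⟨b, hb, hAb, hspan, hbi⟩ := exists_linearIndepOn_id_extension h1
    (show (A : Set (Fin n → F)) ⊆ ((A ∪ Z' : Finset (Fin n → F)) : Set (Fin n → F)) by
      exact_mod_cast subset_union_left)
  let A' : Finset (Fin n → F) := (A ∪ Z').filter (fun x => x ∈ b)
  have hA'b : (A' : Set (Fin n → F)) = b := by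
    ext x
    simp only [A', coe_filter, Set.mem_ofPred_eq]
    constructor
    · exact fun h => h.2
    · intro h
      exact ⟨by exact_mod_cast hb h, h⟩
  have hA'i : Ind A' := by
    have : LinearIndepOn F id (A' : Set (Fin n → F)) := by rw [hA'b]; exact hbi
    exact this
  have hA'PM : A' ⊆ PM M := (filter_subset _ _).trans (union_subset hA hZ)
  have hcard : A'.card ≤ 2 * R := by
    calc A'.card ≤ (A ∪ Z').card := card_filter_le _ _
      _ ≤ A.card + Z'.card := card_union_le _ _
      _ ≤ 2 * R := by omega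
  refine ⟨A'.card, by rw [mem_range]; omega, A', ?_, ?_, ?_⟩
  · unfold Bad
    rw [mem_filter, mem_powersetCard]
    refine ⟨⟨hA'PM.trans (filter_subset _ _), rfl⟩, hA'i, ?_⟩
    obtain ⟨z, hz, hzA⟩ : ∃ z ∈ Z', z ∉ A' := by
      by_contra hcon
      push Not at hcon
      exact hZi (hA'i.mono hcon)
    refine ⟨z, (mem_filter.mp (hZ hz)).1, hzA, ?_⟩
    rw [hA'b]
    apply hspan
    exact_mod_cast mem_union_right A hz
  · intro x hx
    rw [mem_filter]
    exact ⟨mem_union_left _ hx, hAb hx⟩
  · intro x hx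
    exact (mem_filter.mp (hA'PM hx)).2

lemma sum_ir_le {M : Fin m → Fin n → F} {R : ℕ} {Z' : Finset (Fin n → F)}
    (hZ : Z' ⊆ PM M) (hZi : ¬ Ind Z') (hZR : Z'.card ≤ R) :
    2 * ∑ r ∈ range (R + 1), (ir r M : ℝ) ≤ errM R M := by
  classical
  have h1 : ∑ r ∈ range (R + 1), ir r M ≤
      ((range (2 * R + 1)).biUnion (fun s => ((Bad F n m s).filter (fun A => ∀ x ∈ A, Van M x)).biUnion
        (fun A => A.powerset))).card := by
    have h2 : ∑ r ∈ range (R + 1), ir r M =
        ((range (R + 1)).biUnion (fun r => ((PM M).powersetCard r).filter Ind)).card := by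
      rw [card_biUnion]
      · rfl
      · intro r _ r' _ hr
        rw [Function.onFun, disjoint_left]
        intro A hA hA'
        rw [mem_filter, mem_powersetCard] at hA hA'
        exact hr (hA.1.2.symm.trans hA'.1.2)
    rw [h2]
    apply card_le_card
    intro A hA
    rw [mem_biUnion] at hA
    obtain ⟨r, hr, hA⟩ := hA
    rw [mem_filter, mem_powersetCard] at hA
    rw [mem_range] at hr
    obtain ⟨s, hs, A', hA', hAA', hvan⟩ := exists_bad hA.1.1 hA.2 (by omega : A.card ≤ R) hZ hZi hZR
    rw [mem_biUnion]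
    refine ⟨s, hs, ?_⟩
    rw [mem_biUnion]
    exact ⟨A', mem_filter.mpr ⟨hA', hvan⟩, mem_powerset.mpr hAA'⟩
  have h3 : ((range (2 * R + 1)).biUnion (fun s => ((Bad F n m s).filter (fun A => ∀ x ∈ A, Van M x)).biUnion
        (fun A => A.powerset))).card ≤ ∑ s ∈ range (2 * R + 1),
        ∑ A ∈ Bad F n m s, if (∀ x ∈ A, Van M x) then 2 ^ s else 0 := by
    refine card_biUnion_le.trans (sum_le_sum fun s _ => ?_)
    refine card_biUnion_le.trans ?_
    rw [sum_filter]
    apply sum_le_sum
    intro A hA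
    split_ifs
    · rw [card_powerset]
      unfold Bad at hA
      rw [mem_filter, mem_powersetCard] at hA
      rw [hA.1.2]
    · exact le_rfl
  have h4 : (∑ r ∈ range (R + 1), (ir r M : ℝ)) ≤ ∑ s ∈ range (2 * R + 1),
        ∑ A ∈ Bad F n m s, if (∀ x ∈ A, Van M x) then (2:ℝ) ^ s else 0 := by
    exact_mod_cast h1.trans h3
  unfold errM
  calc 2 * ∑ r ∈ range (R + 1), (ir r M : ℝ) ≤ 2 * ∑ s ∈ range (2 * R + 1),
        ∑ A ∈ Bad F n m s, (if (∀ x ∈ A, Van M x) then (2:ℝ) ^ s else 0) := by linarith
    _ = _ := by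
      rw [mul_sum]
      apply sum_congr rfl
      intro s _
      rw [mul_sum]
      apply sum_congr rfl
      intro A _
      split_ifs <;> ring

lemma ir_zero (M : Fin m → Fin n → F) : ir 0 M = 1 := by
  unfold ir
  rw [powersetCard_zero, filter_singleton, if_pos, card_singleton]
  unfold Ind
  exact linearIndependent_empty_type

open scoped Classical in
lemma pointwise (R : ℕ) (M : Fin m → Fin n → F) :
    - errM R M ≤ (-1) ^ R * (∑ r ∈ range (R + 1), (-1:ℝ) ^ r * ir r M - if PM M = ∅ then 1 else 0) := by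
  by_cases hG : ∀ Z' ⊆ PM M, Z'.card ≤ R → Ind Z'
  · have h1 : ∀ r ∈ range (R + 1), (-1:ℝ) ^ r * ir r M = (-1:ℝ) ^ r * ((PM M).card.choose r : ℝ) := by
      intro r hr
      rw [mem_range] at hr
      congr 2
      unfold ir
      rw [filter_true_of_mem, card_powersetCard]
      intro A hA
      rw [mem_powersetCard] at hA
      exact hG A hA.1 (by omega)
    rw [sum_congr rfl h1]
    have h0 := errM_nonneg R M
    refine le_trans (by linarith : - errM R M ≤ 0) ?_
    rcases Nat.eq_zero_or_pos (PM M).card with hc | hc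
    · rw [hc, if_pos (card_eq_zero.mp hc)]
      have : ∑ r ∈ range (R + 1), (-1:ℝ) ^ r * ((0:ℕ).choose r : ℝ) = 1 := by
        rw [sum_range_succ']
        simp
      rw [this]; simp
    · obtain ⟨x, hx⟩ : ∃ x, (PM M).card = x + 1 := ⟨(PM M).card - 1, by omega⟩
      have hne : PM M ≠ ∅ := by
        intro h; rw [h] at hc; simp at hc
      rw [if_neg hne, hx, sub_zero]
      have h2 := Int.alternating_sum_range_choose_eq_choose (n := x) (m := R)
      have h3 : ∑ r ∈ range (R + 1), (-1:ℝ) ^ r * ((x + 1).choose r : ℝ) = (-1) ^ R * x.choose R := by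
        have := congrArg (Int.cast : ℤ → ℝ) h2
        push_cast at this
        exact this
      rw [h3, ← mul_assoc, ← pow_add, ← two_mul, pow_mul]
      simp
  · push Not at hG
    obtain ⟨Z', hZ, hZR, hZi⟩ := hG
    have h1 := sum_ir_le hZ hZi hZR
    have h2 : |(-1:ℝ) ^ R * (∑ r ∈ range (R + 1), (-1:ℝ) ^ r * ir r M - if PM M = ∅ then 1 else 0)| ≤
        2 * ∑ r ∈ range (R + 1), (ir r M : ℝ) := by
      rw [abs_mul, abs_pow, abs_neg, abs_one, one_pow, one_mul]
      refine (abs_sub _ _).trans ?_
      have h3 : |∑ r ∈ range (R + 1), (-1:ℝ) ^ r * ir r M| ≤ ∑ r ∈ range (R + 1), (ir r M : ℝ) := by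
        refine (abs_sum_le_sum_abs _ _).trans (le_of_eq (sum_congr rfl fun r _ => ?_))
        rw [abs_mul, abs_pow, abs_neg, abs_one, one_pow, one_mul, abs_of_nonneg (by positivity)]
      have h4 : |(if PM M = ∅ then (1:ℝ) else 0)| ≤ 1 := by split_ifs <;> simp
      have h5 : (1:ℝ) ≤ ∑ r ∈ range (R + 1), (ir r M : ℝ) := by
        have : ((ir 0 M : ℕ) : ℝ) ≤ ∑ r ∈ range (R + 1), (ir r M : ℝ) :=
          single_le_sum (f := fun r => (ir r M : ℝ)) (fun _ _ => by positivity) (by simp)
        rw [ir_zero] at this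
        simpa using this
      linarith
    have := (abs_le.mp h2).1
    linarith

/-- normalised number of independent `r`-subsets of `P` -/
def er (F : Type) [Field F] [Fintype F] [DecidableEq F] (n m r : ℕ) : ℝ := by
  classical
  exact ((((P F n m).powersetCard r).filter Ind).card : ℝ) / ((Fintype.card F : ℝ) ^ m) ^ r

/-- normalised number of bad sets -/
def br (F : Type) [Field F] [Fintype F] [DecidableEq F] (n m s : ℕ) : ℝ :=
  ((Bad F n m s).card : ℝ) / ((Fintype.card F : ℝ) ^ m) ^ s

open scoped Classical in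
/-- probability that a uniform `m × n` matrix has no light kernel word -/
def Pi0 (F : Type) [Field F] [Fintype F] [DecidableEq F] (n m : ℕ) : ℝ :=
  ((univ.filter (fun M : Fin m → Fin n → F => PM M = ∅)).card : ℝ) / ((Fintype.card F : ℝ) ^ n) ^ m

open scoped Classical in
lemma card_van_real (A : Finset (Fin n → F)) (hA : Ind A) :
    ((univ.filter (fun M : Fin m → Fin n → F => ∀ x ∈ A, Van M x)).card : ℝ) =
      ((Fintype.card F : ℝ) ^ n) ^ m / ((Fintype.card F : ℝ) ^ m) ^ A.card := by
  have hq : (0:ℝ) < Fintype.card F := by exact_mod_cast Fintype.card_pos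
  rw [eq_div_iff (by positivity)]
  exact_mod_cast card_van m A hA

lemma sum_ir (r : ℕ) : ∑ M : Fin m → Fin n → F, (ir r M : ℝ) =
    er F n m r * ((Fintype.card F : ℝ) ^ n) ^ m := by
  classical
  have h1 : ∀ M : Fin m → Fin n → F, (ir r M : ℝ) =
      ∑ A ∈ ((P F n m).powersetCard r).filter Ind, if (∀ x ∈ A, Van M x) then (1:ℝ) else 0 := by
    intro M
    unfold ir
    rw [← sum_filter, sum_const, nsmul_eq_mul, mul_one]
    congr 2
    ext A
    simp only [mem_filter, mem_powersetCard]
    constructor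
    · rintro ⟨⟨h1, h2⟩, h3⟩
      exact ⟨⟨⟨h1.trans (filter_subset _ _), h2⟩, h3⟩, fun x hx => (mem_filter.mp (h1 hx)).2⟩
    · rintro ⟨⟨⟨h1, h2⟩, h3⟩, h4⟩
      exact ⟨⟨fun x hx => mem_filter.mpr ⟨h1 hx, h4 x hx⟩, h2⟩, h3⟩
  simp_rw [h1]
  rw [sum_comm]
  have h2 : ∀ A ∈ ((P F n m).powersetCard r).filter Ind,
      ∑ M : Fin m → Fin n → F, (if (∀ x ∈ A, Van M x) then (1:ℝ) else 0) =
        ((Fintype.card F : ℝ) ^ n) ^ m / ((Fintype.card F : ℝ) ^ m) ^ r := by
    intro A hA
    rw [mem_filter, mem_powersetCard] at hA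
    rw [← sum_filter, sum_const, nsmul_eq_mul, mul_one, card_van_real A hA.2, hA.1.2]
  rw [sum_congr rfl h2, sum_const, nsmul_eq_mul]
  unfold er
  ring

lemma sum_errM (R : ℕ) : ∑ M : Fin m → Fin n → F, errM R M =
    (2 * ∑ s ∈ range (2 * R + 1), 2 ^ s * br F n m s) * ((Fintype.card F : ℝ) ^ n) ^ m := by
  classical
  unfold errM
  rw [sum_comm, mul_sum, sum_mul]
  apply sum_congr rfl
  intro s _
  rw [sum_comm]
  have h2 : ∀ A ∈ Bad F n m s,
      ∑ M : Fin m → Fin n → F, (if (∀ x ∈ A, Van M x) then 2 * (2:ℝ) ^ s else 0) =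
        (2 * (2:ℝ) ^ s) * (((Fintype.card F : ℝ) ^ n) ^ m / ((Fintype.card F : ℝ) ^ m) ^ s) := by
    intro A hA
    unfold Bad at hA
    rw [mem_filter, mem_powersetCard] at hA
    rw [← sum_filter, sum_const, nsmul_eq_mul, card_van_real A hA.2.1, hA.1.2]
    ring
  rw [sum_congr rfl h2, sum_const, nsmul_eq_mul]
  unfold br
  ring

lemma bonf (R : ℕ) : - (2 * ∑ s ∈ range (2 * R + 1), 2 ^ s * br F n m s) ≤
    (-1) ^ R * (∑ r ∈ range (R + 1), (-1:ℝ) ^ r * er F n m r - Pi0 F n m) := by
  classical
  have hq : (0:ℝ) < Fintype.card F := by exact_mod_cast Fintype.card_pos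
  have h1 : ∑ M : Fin m → Fin n → F, (- errM R M) ≤ ∑ M : Fin m → Fin n → F,
      (-1) ^ R * (∑ r ∈ range (R + 1), (-1:ℝ) ^ r * ir r M - if PM M = ∅ then 1 else 0) :=
    sum_le_sum fun M _ => pointwise R M
  rw [sum_neg_distrib, sum_errM, ← mul_sum, sum_sub_distrib, sum_comm] at h1
  have h2 : ∑ r ∈ range (R + 1), ∑ M : Fin m → Fin n → F, (-1:ℝ) ^ r * ir r M =
      (∑ r ∈ range (R + 1), (-1:ℝ) ^ r * er F n m r) * ((Fintype.card F : ℝ) ^ n) ^ m := by
    rw [sum_mul]
    apply sum_congr rfl
    intro r _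
    rw [← mul_sum, sum_ir]; ring
  have h3 : ∑ M : Fin m → Fin n → F, (if PM M = ∅ then (1:ℝ) else 0) =
      Pi0 F n m * ((Fintype.card F : ℝ) ^ n) ^ m := by
    rw [← sum_filter, sum_const, nsmul_eq_mul, mul_one]
    unfold Pi0
    rw [div_mul_cancel₀ _ (by positivity)]
  rw [h2, h3, ← sub_mul, ← mul_assoc, ← neg_mul] at h1
  exact le_of_mul_le_mul_right h1 (by positivity)

end Bonf

section Est

lemma choose_mono_half {n m : ℕ} (h : 2 * m ≤ n) {w : ℕ} (hw : w ≤ m) : n.choose w ≤ n.choose m := by
  induction m, hw using Nat.le_induction with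
  | base => exact le_rfl
  | succ k hk ih =>
    refine (ih (by omega)).trans ?_
    apply Nat.choose_le_succ_of_lt_half_left
    omega

lemma two_pow_le_centralBinom (m : ℕ) : 2 ^ m ≤ m.centralBinom := by
  induction m with
  | zero => simp
  | succ k ih =>
    have h := Nat.succ_mul_centralBinom_succ k
    have h2 : (k + 1) * 2 ^ (k + 1) ≤ (k + 1) * (k + 1).centralBinom := by
      rw [h, pow_succ]
      nlinarith
    exact Nat.le_of_mul_le_mul_left h2 (Nat.succ_pos k)

lemma two_pow_le_choose {n m : ℕ} (h : 2 * m ≤ n) : 2 ^ m ≤ n.choose m :=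
  (two_pow_le_centralBinom m).trans (Nat.choose_le_choose m h)

lemma sq_le_two_pow (m : ℕ) : m ^ 2 ≤ 2 * 2 ^ m := by
  rcases lt_or_ge m 4 with h | h
  · interval_cases m <;> norm_num
  · induction m, h using Nat.le_induction with
    | base => norm_num
    | succ k hk ih =>
      rw [pow_succ 2 k]
      nlinarith

lemma sq_le_choose {n m : ℕ} (h : 2 * m ≤ n) (hm : 2 ≤ m) : n ^ 2 ≤ 4 * n.choose m := by
  have h1 : n.choose 2 ≤ n.choose m := choose_mono_half h hm
  have h2 : n.choose 2 = n * (n - 1) / 2 := Nat.choose_two_right n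
  have h3 : 2 * n.choose 2 = n * (n - 1) := by
    rw [h2]
    exact Nat.mul_div_cancel' (Nat.even_mul_pred_self n).two_dvd
  have h4 : n ≤ 2 * (n - 1) := by omega
  nlinarith

lemma choose_add_le (n m i : ℕ) : n.choose (m + i) ≤ n.choose m * n ^ i := by
  induction i with
  | zero => simp
  | succ i ih =>
    have h1 : n.choose (m + i + 1) * (m + i + 1) = n.choose (m + i) * (n - (m + i)) :=
      Nat.choose_succ_right_eq n (m + i)
    have h2 : n.choose (m + i + 1) ≤ n.choose (m + i) * n := by
      calc n.choose (m + i + 1) ≤ n.choose (m + i + 1) * (m + i + 1) := Nat.le_mul_of_pos_right _ (Nat.succ_pos _)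
        _ = n.choose (m + i) * (n - (m + i)) := h1
        _ ≤ _ := Nat.mul_le_mul_left _ (Nat.sub_le _ _)
    calc n.choose (m + (i + 1)) = n.choose (m + i + 1) := rfl
      _ ≤ n.choose (m + i) * n := h2
      _ ≤ n.choose m * n ^ i * n := Nat.mul_le_mul_right _ ih
      _ = _ := by rw [pow_succ, mul_assoc]

variable {F : Type} [Field F] [Fintype F] [DecidableEq F] {n m : ℕ}

lemma cast_q_sub : ((Fintype.card F - 1 : ℕ) : ℝ) = (Fintype.card F : ℝ) - 1 := by
  rw [Nat.cast_sub (Fintype.card_pos), Nat.cast_one]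

/-- normalised size of `P` -/
def Lam (F : Type) [Field F] [Fintype F] [DecidableEq F] (n m : ℕ) : ℝ :=
  ((P F n m).card : ℝ) / (Fintype.card F : ℝ) ^ m

lemma Lam_nonneg : 0 ≤ Lam F n m := by unfold Lam; positivity

lemma Lam_ge (hm : 1 ≤ m) (hq : (3:ℝ) ≤ Fintype.card F) :
    (n.choose m : ℝ) / Fintype.card F * (1 - m / Fintype.card F) ≤ Lam F n m := by
  set q : ℝ := (Fintype.card F : ℝ) with hqd
  have h1 : ((n.choose m * (Fintype.card F - 1) ^ m : ℕ) : ℝ) ≤ ((Z F n m).card : ℝ) := by
    exact_mod_cast Z_ge (F := F) (n := n) m hm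
  rw [card_Z] at h1
  push_cast at h1
  rw [cast_q_sub, ← hqd] at h1
  unfold Lam
  rw [← hqd]
  have hq1 : 0 < q - 1 := by linarith
  obtain ⟨k, rfl⟩ : ∃ k, m = k + 1 := ⟨m - 1, by omega⟩
  have h2 : (n.choose (k + 1) : ℝ) * (q - 1) ^ k ≤ (P F n (k + 1)).card := by
    rw [pow_succ, ← mul_assoc, mul_comm] at h1
    exact le_of_mul_le_mul_left h1 hq1
  rw [le_div_iff₀ (by positivity)]
  refine le_trans ?_ h2
  have h3 : 1 + (k:ℝ) * (-(1/q)) ≤ (1 + (-(1/q))) ^ k := one_add_mul_le_pow (by
    have : 1 / q ≤ 1 := by rw [div_le_one (by linarith)]; linarith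
    linarith) k
  have h4 : (q - 1) ^ k = q ^ k * (1 + (-(1/q))) ^ k := by
    rw [← mul_pow]; congr 1; field_simp; ring
  rw [h4]
  have h5 : 1 - ((k + 1 : ℕ) : ℝ) / q ≤ 1 + (k:ℝ) * (-(1/q)) := by
    push_cast
    have : 0 < 1 / q := by positivity
    have e : ((k:ℝ) + 1) / q = k * (1 / q) + 1 / q := by ring
    rw [e]; linarith
  have h6 : (0:ℝ) ≤ n.choose (k + 1) := by positivity
  calc (n.choose (k + 1) : ℝ) / q * (1 - ((k + 1 : ℕ) : ℝ) / q) * q ^ (k + 1)
      = n.choose (k + 1) * q ^ k * (1 - ((k + 1 : ℕ) : ℝ) / q) := by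
        rw [pow_succ]; field_simp
    _ ≤ n.choose (k + 1) * q ^ k * (1 + (-(1/q))) ^ k :=
        mul_le_mul_of_nonneg_left (h5.trans h3) (by positivity)
    _ = _ := by ring

lemma Lam_le (hm : 2 * m ≤ n) (hq : (3:ℝ) ≤ Fintype.card F) :
    Lam F n m ≤ (n.choose m : ℝ) / (Fintype.card F - 2) := by
  set q : ℝ := (Fintype.card F : ℝ) with hqd
  have h1 : ((Z F n m).card : ℝ) ≤
      ((∑ w ∈ range (m + 1), n.choose w * (Fintype.card F - 1) ^ w : ℕ) : ℝ) := by
    exact_mod_cast Z_le (F := F) (n := n) m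
  rw [card_Z] at h1
  push_cast at h1
  rw [cast_q_sub, ← hqd] at h1
  have hq1 : 0 < q - 1 := by linarith
  have hq2 : 0 < q - 2 := by linarith
  have h2 : ∑ w ∈ range (m + 1), (n.choose w : ℝ) * (q - 1) ^ w ≤
      n.choose m * ∑ w ∈ range (m + 1), (q - 1) ^ w := by
    rw [mul_sum]
    apply sum_le_sum
    intro w hw
    rw [mem_range] at hw
    apply mul_le_mul_of_nonneg_right _ (by positivity)
    exact_mod_cast choose_mono_half hm (by omega)
  have h3 : (∑ w ∈ range (m + 1), (q - 1) ^ w) * (q - 2) ≤ (q - 1) ^ (m + 1) := by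
    have := geom_sum_mul (q - 1) (m + 1)
    have e : q - 1 - 1 = q - 2 := by ring
    rw [e] at this
    rw [this]; linarith
  unfold Lam
  rw [← hqd, div_le_div_iff₀ (by positivity) hq2]
  have h4 : (q - 1) * (((P F n m).card : ℝ) * (q - 2)) ≤ (q - 1) * (n.choose m * q ^ m) := by
    calc (q - 1) * (((P F n m).card : ℝ) * (q - 2)) = ((q - 1) * (P F n m).card) * (q - 2) := by ring
      _ ≤ (n.choose m * ∑ w ∈ range (m + 1), (q - 1) ^ w) * (q - 2) :=
          mul_le_mul_of_nonneg_right (h1.trans h2) hq2.le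
      _ = n.choose m * ((∑ w ∈ range (m + 1), (q - 1) ^ w) * (q - 2)) := by ring
      _ ≤ n.choose m * (q - 1) ^ (m + 1) := mul_le_mul_of_nonneg_left h3 (by positivity)
      _ = (q - 1) * (n.choose m * (q - 1) ^ m) := by rw [pow_succ]; ring
      _ ≤ _ := by
        apply mul_le_mul_of_nonneg_left _ hq1.le
        apply mul_le_mul_of_nonneg_left _ (by positivity)
        exact pow_le_pow_left₀ hq1.le (by linarith) m
  exact le_of_mul_le_mul_left h4 hq1

/-- normalised number of crowded pairs -/
def cpr (F : Type) [Field F] [Fintype F] [DecidableEq F] (n m : ℕ) : ℝ :=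
  ((CP F n m).card : ℝ) / ((Fintype.card F : ℝ) ^ m) ^ 2

/-- normalised size of `Kn` -/
def knr (F : Type) [Field F] [Fintype F] [DecidableEq F] (n t m : ℕ) : ℝ :=
  ((Kn F n t m).card : ℝ) / ((Fintype.card F : ℝ) ^ m) ^ t

lemma cpr_le (hm : m ≤ n) (hq : (3:ℝ) ≤ Fintype.card F) :
    cpr F n m ≤ (n.choose m : ℝ) / (Fintype.card F - 1) ^ 2 := by
  have hq1 : (0:ℝ) < (Fintype.card F : ℝ) - 1 := by linarith
  have hq0 : (0:ℝ) < (Fintype.card F : ℝ) := by linarith
  have h := CP_le (F := F) hm
  have h' : (((Fintype.card F - 1) ^ 2 * (CP F n m).card : ℕ) : ℝ) ≤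
      ((n.choose m * (Fintype.card F ^ m) ^ 2 : ℕ) : ℝ) := by exact_mod_cast h
  push_cast at h'
  rw [cast_q_sub] at h'
  unfold cpr
  rw [div_le_div_iff₀ (by positivity) (by positivity), mul_comm]
  exact h'

lemma Bad_small {s : ℕ} (hs : s < 2) : Bad F n m s = ∅ := by
  classical
  unfold Bad
  rw [filter_eq_empty_iff]
  rintro J hJ ⟨_, y, hy, hyJ, hys⟩
  rw [mem_powersetCard] at hJ
  have hyN := (mem_P.mp hy).1
  have hc : s = 0 ∨ s = 1 := by omega
  rcases hc with rfl | rfl
  · rw [card_eq_zero] at hJ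
    rw [hJ.2] at hys
    simp at hys
    exact hyN.ne_zero hys
  · rw [card_eq_one] at hJ
    obtain ⟨hJP, a, rfl⟩ := hJ
    rw [coe_singleton, Submodule.mem_span_singleton] at hys
    obtain ⟨c, rfl⟩ := hys
    have haP := (mem_P.mp (hJP (mem_singleton_self a))).1
    rw [haP.smul_eq hyN, one_smul] at hyJ
    simp at hyJ

lemma choose_div_le (N j : ℕ) {x : ℝ} (hx : 0 < x) : (N.choose j : ℝ) / x ^ j ≤ ((N:ℝ) / x) ^ j := by
  rw [div_pow]
  apply div_le_div_of_nonneg_right _ (by positivity)
  exact_mod_cast Nat.choose_le_pow N j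

lemma br_le {s : ℕ} (hs : 2 ≤ s) : br F n m s ≤ cpr F n m * Lam F n m ^ (s - 2) +
    ∑ t ∈ Icc 2 s, knr F n t m * Lam F n m ^ (s - t) := by
  have hq0 : (0:ℝ) < (Fintype.card F : ℝ) := by exact_mod_cast Fintype.card_pos
  have h : ((Bad F n m s).card : ℝ) ≤ (((CP F n m).card * (P F n m).card.choose (s - 2) +
    ∑ t ∈ Icc 2 s, (Kn F n t m).card * (P F n m).card.choose (s - t) : ℕ) : ℝ) := by
    exact_mod_cast Bad_le m s
  push_cast at h
  unfold br
  set x : ℝ := (Fintype.card F : ℝ) ^ m with hx
  have hx0 : 0 < x := by positivity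
  calc ((Bad F n m s).card : ℝ) / x ^ s
      ≤ (((CP F n m).card : ℝ) * ((P F n m).card.choose (s - 2) : ℝ) +
    ∑ t ∈ Icc 2 s, ((Kn F n t m).card : ℝ) * ((P F n m).card.choose (s - t) : ℝ)) / x ^ s :=
        div_le_div_of_nonneg_right h (by positivity)
    _ = ((CP F n m).card : ℝ) / x ^ 2 * (((P F n m).card.choose (s - 2) : ℝ) / x ^ (s - 2)) +
    ∑ t ∈ Icc 2 s, ((Kn F n t m).card : ℝ) / x ^ t * (((P F n m).card.choose (s - t) : ℝ) / x ^ (s - t)) := by
        rw [add_div, sum_div]
        congr 1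
        · have : x ^ s = x ^ 2 * x ^ (s - 2) := by rw [← pow_add]; congr 1; omega
          rw [this]; field_simp
        · apply sum_congr rfl
          intro t ht
          rw [mem_Icc] at ht
          have : x ^ s = x ^ t * x ^ (s - t) := by rw [← pow_add]; congr 1; omega
          rw [this]; field_simp
    _ ≤ _ := by
        unfold cpr knr Lam
        rw [← hx]
        apply add_le_add
        · exact mul_le_mul_of_nonneg_left (choose_div_le _ _ hx0) (by positivity)
        · apply sum_le_sum
          intro t _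
          exact mul_le_mul_of_nonneg_left (choose_div_le _ _ hx0) (by positivity)

lemma dep_le (r : ℕ) : ((P F n m).card.choose r : ℝ) / ((Fintype.card F : ℝ) ^ m) ^ r -
    ∑ s ∈ range r, br F n m s * Lam F n m ^ (r - s) ≤ er F n m r := by
  classical
  have hq0 : (0:ℝ) < (Fintype.card F : ℝ) := by exact_mod_cast Fintype.card_pos
  have h1 : ((P F n m).powersetCard r).filter (fun A => ¬ Ind A) ⊆
      (range r).biUnion (fun s => (Bad F n m s ×ˢ (P F n m).powersetCard (r - s)).image
        (fun p => p.1 ∪ p.2)) := by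
    intro A hA
    rw [mem_filter, mem_powersetCard] at hA
    obtain ⟨⟨hAP, hAr⟩, hAi⟩ := hA
    obtain ⟨b, hb, _, hspan, hbi⟩ := exists_linearIndepOn_id_extension (K := F)
      (linearIndependent_empty F (Fin n → F)) (Set.empty_subset (A : Set (Fin n → F)))
    let A' : Finset (Fin n → F) := A.filter (fun x => x ∈ b)
    have hA'b : (A' : Set (Fin n → F)) = b := by
      ext x
      simp only [A', coe_filter, Set.mem_ofPred_eq]
      constructor
      · exact fun h => h.2
      · intro h
        exact ⟨by exact_mod_cast hb h, h⟩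
    have hA'i : Ind A' := by
      have : LinearIndepOn F id (A' : Set (Fin n → F)) := by rw [hA'b]; exact hbi
      exact this
    have hA'A : A' ⊆ A := filter_subset _ _
    obtain ⟨z, hz, hzA⟩ : ∃ z ∈ A, z ∉ A' := by
      by_contra hcon
      push Not at hcon
      exact hAi (hA'i.mono hcon)
    have hlt : A'.card < r := by
      rw [← hAr]
      apply card_lt_card
      rw [ssubset_iff_of_subset hA'A]
      exact ⟨z, hz, hzA⟩
    rw [mem_biUnion]
    refine ⟨A'.card, mem_range.mpr hlt, ?_⟩
    rw [mem_image]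
    refine ⟨(A', A \ A'), ?_, union_sdiff_of_subset hA'A⟩
    rw [mem_product, mem_powersetCard]
    refine ⟨?_, sdiff_subset.trans hAP, by simp only; rw [card_sdiff_of_subset hA'A, hAr]⟩
    unfold Bad
    rw [mem_filter, mem_powersetCard]
    refine ⟨⟨hA'A.trans hAP, rfl⟩, hA'i, z, hAP hz, hzA, ?_⟩
    simp only
    rw [hA'b]
    exact hspan (by exact_mod_cast hz)
  have h2 : (P F n m).card.choose r ≤ (((P F n m).powersetCard r).filter Ind).card +
      ∑ s ∈ range r, (Bad F n m s).card * (P F n m).card.choose (r - s) := by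
    rw [← card_powersetCard, ← card_filter_add_card_filter_not (s := (P F n m).powersetCard r) Ind]
    apply Nat.add_le_add_left
    refine (card_le_card h1).trans (card_biUnion_le.trans (sum_le_sum fun s _ => ?_))
    refine card_image_le.trans ?_
    rw [card_product, card_powersetCard]
  have h3 : ((P F n m).card.choose r : ℝ) ≤ ((((P F n m).powersetCard r).filter Ind).card : ℝ) +
      ∑ s ∈ range r, ((Bad F n m s).card : ℝ) * ((P F n m).card.choose (r - s) : ℝ) := by
    exact_mod_cast h2
  set x : ℝ := (Fintype.card F : ℝ) ^ m with hx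
  have hx0 : 0 < x := by positivity
  have h4 : (∑ s ∈ range r, ((Bad F n m s).card : ℝ) * ((P F n m).card.choose (r - s) : ℝ)) / x ^ r ≤
      ∑ s ∈ range r, br F n m s * Lam F n m ^ (r - s) := by
    rw [sum_div]
    apply sum_le_sum
    intro s hs
    rw [mem_range] at hs
    have : x ^ r = x ^ s * x ^ (r - s) := by rw [← pow_add]; congr 1; omega
    rw [this]
    calc ((Bad F n m s).card : ℝ) * ((P F n m).card.choose (r - s) : ℝ) / (x ^ s * x ^ (r - s))
        = ((Bad F n m s).card : ℝ) / x ^ s * (((P F n m).card.choose (r - s) : ℝ) / x ^ (r - s)) := by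
          field_simp
      _ ≤ _ := by
        unfold br Lam
        rw [← hx]
        exact mul_le_mul_of_nonneg_left (choose_div_le _ _ hx0) (by positivity)
  have h5 := div_le_div_of_nonneg_right h3 (show 0 ≤ x ^ r by positivity)
  rw [add_div] at h5
  have h6 : er F n m r = ((((P F n m).powersetCard r).filter Ind).card : ℝ) / x ^ r := by
    unfold er; rw [← hx]
  rw [h6]
  linarith

lemma er_le (r : ℕ) : er F n m r ≤ ((P F n m).card.choose r : ℝ) / ((Fintype.card F : ℝ) ^ m) ^ r := by
  classical
  unfold er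
  apply div_le_div_of_nonneg_right _ (by positivity)
  have := card_filter_le ((P F n m).powersetCard r) Ind
  rw [card_powersetCard] at this
  exact_mod_cast this

end Est

section KnBound

variable {F : Type} [Field F] [Fintype F] [DecidableEq F] {n m : ℕ}

lemma knr_nonneg {t : ℕ} : 0 ≤ knr F n t m := by unfold knr; positivity

lemma geom_le {x : ℝ} (hx : 0 ≤ x) (hx2 : x ≤ 1 / 2) (m n : ℕ) :
    ∑ u ∈ Icc (m + 1) n, x ^ (u - m) ≤ 2 * x := by
  have h1 : Icc (m + 1) n = Ico (m + 1) (n + 1) := by ext u; simp only [mem_Icc, mem_Ico]; omega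
  rw [h1, sum_Ico_eq_sum_range]
  have h2 : ∀ i ∈ range (n + 1 - (m + 1)), x ^ (m + 1 + i - m) = x * x ^ i := by
    intro i _
    have : m + 1 + i - m = i + 1 := by omega
    rw [this, pow_succ]; ring
  rw [sum_congr rfl h2, ← mul_sum]
  have h3 : (∑ i ∈ range (n + 1 - (m + 1)), x ^ i) * (1 - x) ≤ 1 := by
    have := mul_neg_geom_sum x (n + 1 - (m + 1))
    rw [mul_comm, this]
    have : 0 ≤ x ^ (n + 1 - (m + 1)) := by positivity
    linarith
  have h4 : 0 ≤ ∑ i ∈ range (n + 1 - (m + 1)), x ^ i := sum_nonneg fun _ _ => by positivity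
  have h5 : ∑ i ∈ range (n + 1 - (m + 1)), x ^ i ≤ 2 := by nlinarith
  nlinarith

lemma knr_le {t : ℕ} {z : ℝ} (hz : z ^ (4 * (t + 1)) = Fintype.card F) (hz2 : 16 * 2 ^ (t + 1) ≤ z)
    (hm : 2 ≤ m) (hmn : 2 * m ≤ n) (hq : (3:ℝ) ≤ Fintype.card F)
    (hL : 2 ^ 17 * ((n.choose m : ℝ) / Fintype.card F) ^ 4 ≤ (Fintype.card F : ℝ) ^ 2) :
    knr F n t m ^ 8 ≤ 2 ^ 25 * ((n.choose m : ℝ) / Fintype.card F) ^ 13 / Fintype.card F := by
  set q : ℝ := (Fintype.card F : ℝ) with hqd
  set L : ℝ := (n.choose m : ℝ) / q with hLd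
  have hq0 : 0 < q := by linarith
  have hL0 : 0 ≤ L := by positivity
  have hCL : (n.choose m : ℝ) = L * q := by rw [hLd]; field_simp
  have hz1 : 1 ≤ z := by
    have : (1:ℝ) ≤ 2 ^ (t + 1) := one_le_pow₀ (by norm_num)
    linarith
  have hz0 : 0 < z := by linarith
  have hzq : z ≤ q := by
    rw [← hz]
    calc z = z ^ 1 := (pow_one z).symm
      _ ≤ _ := pow_le_pow_right₀ hz1 (by omega)
  set δ : ℝ := 2 ^ (t + 1) / z with hδ
  have hδ0 : 0 ≤ δ := by positivity
  have hδ1 : δ ≤ 1 / 16 := by
    rw [hδ, div_le_iff₀ hz0]; linarith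
  have h18 : (1 + δ) ^ 8 ≤ 2 := by
    calc (1 + δ) ^ 8 ≤ (1 + 1/16) ^ 8 := pow_le_pow_left₀ (by positivity) (by linarith) 8
      _ ≤ 2 := by norm_num
  set A0 : ℝ := q⁻¹ * (z ^ (t + 1) * (1 + δ)) with hA0
  have hA00 : 0 < A0 := by positivity
  have hA : Acol F t (q / z) ≤ A0 := by
    refine (Acol_le hz1).trans (le_of_eq ?_)
    rw [hA0, hδ, hqd]
    congr 1
    rw [pow_succ z t]; field_simp
  have hAn : 0 ≤ Acol F t (q / z) := Acol_nonneg (by positivity)
  -- (n A0)^8 bound
  have hn2 : (n:ℝ) ^ 2 ≤ 4 * (L * q) := by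
    rw [← hCL]; exact_mod_cast sq_le_choose hmn hm
  have hnA8 : (n * A0) ^ 8 ≤ 512 * L ^ 4 / q ^ 2 := by
    have e1 : (n * A0) ^ 8 = ((n:ℝ) ^ 2) ^ 4 * (q⁻¹) ^ 8 * (z ^ (4 * (t + 1))) ^ 2 * (1 + δ) ^ 8 := by
      rw [hA0]; ring
    rw [e1, hz]
    have e2 : ((n:ℝ) ^ 2) ^ 4 ≤ (4 * (L * q)) ^ 4 := pow_le_pow_left₀ (by positivity) hn2 4
    calc ((n:ℝ) ^ 2) ^ 4 * (q⁻¹) ^ 8 * q ^ 2 * (1 + δ) ^ 8
        ≤ (4 * (L * q)) ^ 4 * (q⁻¹) ^ 8 * q ^ 2 * 2 := by
          apply mul_le_mul _ h18 (by positivity) (by positivity)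
          apply mul_le_mul_of_nonneg_right _ (by positivity)
          exact mul_le_mul_of_nonneg_right e2 (by positivity)
      _ = 512 * L ^ 4 / q ^ 2 := by field_simp; ring
  have hnA : n * A0 ≤ 1 / 2 := by
    have e1 : (n * A0) ^ 8 ≤ (1 / 2 : ℝ) ^ 8 := by
      refine hnA8.trans ?_
      rw [div_le_iff₀ (by positivity)]
      have : 512 * L ^ 4 = (1/2:ℝ) ^ 8 * (2 ^ 17 * L ^ 4) := by norm_num; ring
      rw [this]
      exact mul_le_mul_of_nonneg_left hL (by positivity)
    exact le_of_pow_le_pow_left₀ (by norm_num) (by norm_num) e1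
  have hnA0 : 0 ≤ n * A0 := by positivity
  -- Kset bound
  have hK := Kset_le (F := F) (n := n) (t := t) (m := m) (y := q / z) (by rw [le_div_iff₀ hz0]; linarith)
  have hS : ∑ u ∈ Icc (m + 1) n, (n.choose u : ℝ) * Acol F t (q / z) ^ u ≤
      A0 ^ m * (L * q) * (2 * (n * A0)) := by
    have e1 : ∀ u ∈ Icc (m + 1) n, (n.choose u : ℝ) * Acol F t (q / z) ^ u ≤
        A0 ^ m * (L * q) * (n * A0) ^ (u - m) := by
      intro u hu
      rw [mem_Icc] at hu
      obtain ⟨i, rfl⟩ : ∃ i, u = m + i := ⟨u - m, by omega⟩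
      have e2 : (n.choose (m + i) : ℝ) ≤ (L * q) * n ^ i := by
        rw [← hCL]; exact_mod_cast choose_add_le n m i
      have e3 : Acol F t (q / z) ^ (m + i) ≤ A0 ^ (m + i) := pow_le_pow_left₀ hAn hA _
      calc (n.choose (m + i) : ℝ) * Acol F t (q / z) ^ (m + i) ≤ ((L * q) * n ^ i) * A0 ^ (m + i) :=
            mul_le_mul e2 e3 (by positivity) (by positivity)
        _ = _ := by
          rw [Nat.add_sub_cancel_left, mul_pow (n:ℝ) A0 i, pow_add A0 m i]
          clear_value A0
          ring
    refine (sum_le_sum e1).trans ?_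
    rw [← mul_sum]
    exact mul_le_mul_of_nonneg_left (geom_le hnA0 hnA m n) (by positivity)
  have hK2 : ((Kset F n t m).card : ℝ) ≤ (q ^ m) ^ t * ((1 + δ) ^ m * (L * q) * (2 * (n * A0))) := by
    refine hK.trans ((mul_le_mul_of_nonneg_left hS (by positivity)).trans (le_of_eq ?_))
    have e1 : (q / z) ^ ((t + 1) * m) * A0 ^ m = (q ^ m) ^ t * (1 + δ) ^ m := by
      rw [pow_mul, ← mul_pow, ← pow_mul, mul_comm m t, pow_mul, ← mul_pow]
      congr 1
      rw [hA0, div_pow, pow_succ q t]
      field_simp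
    calc (q / z) ^ ((t + 1) * m) * (A0 ^ m * (L * q) * (2 * (n * A0)))
        = ((q / z) ^ ((t + 1) * m) * A0 ^ m) * ((L * q) * (2 * (n * A0))) := by ring
      _ = _ := by rw [e1]; ring
  have hKn : (q - 1) * ((Kn F n t m).card : ℝ) ≤ ((Kset F n t m).card : ℝ) := by
    have := Kn_le (F := F) (n := n) t m
    have h' : (((Fintype.card F - 1) * (Kn F n t m).card : ℕ) : ℝ) ≤ ((Kset F n t m).card : ℝ) := by
      exact_mod_cast this
    push_cast at h'
    rw [cast_q_sub, ← hqd] at h'
    exact h'
  have hq2 : q / 2 ≤ q - 1 := by linarith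
  have hkn : knr F n t m ≤ (1 + δ) ^ m * (2 * L) * (2 * (n * A0)) := by
    unfold knr
    rw [← hqd, div_le_iff₀ (by positivity)]
    have e1 : (q / 2) * ((Kn F n t m).card : ℝ) ≤ (q ^ m) ^ t * ((1 + δ) ^ m * (L * q) * (2 * (n * A0))) :=
      (mul_le_mul_of_nonneg_right hq2 (Nat.cast_nonneg _)).trans (hKn.trans hK2)
    have e2 : (q / 2) * ((Kn F n t m).card : ℝ) ≤
        (q / 2) * ((1 + δ) ^ m * (2 * L) * (2 * (n * A0)) * (q ^ m) ^ t) := by
      refine e1.trans (le_of_eq ?_)
      clear_value A0 δ L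
      ring
    exact le_of_mul_le_mul_left e2 (by positivity)
  have h1m : ((1 + δ) ^ m) ^ 8 ≤ L * q := by
    rw [← pow_mul, mul_comm, pow_mul]
    calc ((1 + δ) ^ 8) ^ m ≤ 2 ^ m := pow_le_pow_left₀ (by positivity) h18 m
      _ ≤ L * q := by rw [← hCL]; exact_mod_cast two_pow_le_choose hmn
  calc knr F n t m ^ 8 ≤ ((1 + δ) ^ m * (2 * L) * (2 * (n * A0))) ^ 8 :=
        pow_le_pow_left₀ knr_nonneg hkn 8
    _ = ((1 + δ) ^ m) ^ 8 * (2 * L) ^ 8 * (2 ^ 8 * (n * A0) ^ 8) := by ring
    _ ≤ (L * q) * (2 * L) ^ 8 * (2 ^ 8 * (512 * L ^ 4 / q ^ 2)) := by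
        apply mul_le_mul
        · exact mul_le_mul_of_nonneg_right h1m (by positivity)
        · exact mul_le_mul_of_nonneg_left hnA8 (by positivity)
        · positivity
        · positivity
    _ = 2 ^ 25 * L ^ 13 / q := by field_simp; ring

end KnBound

section Lim

variable (F : ℕ → Type) [∀ j, Field (F j)] [∀ j, Fintype (F j)] [∀ j, DecidableEq (F j)]
  (n m : ℕ → ℕ) (lam : ℝ)

/-- the sequence hypotheses -/
structure Hyp : Prop where
  hlam : 0 < lam
  hm : ∀ᶠ j in atTop, 1 ≤ m j ∧ 2 * m j ≤ n j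
  hq : Tendsto (fun j => (Fintype.card (F j) : ℝ)) atTop atTop
  hL : Tendsto (fun j => ((n j).choose (m j) : ℝ) / Fintype.card (F j)) atTop (𝓝 lam)

variable {F n m lam}

lemma tendsto_zero_of_pow {f : ℕ → ℝ} {k : ℕ} (hk : k ≠ 0) (hf : ∀ j, 0 ≤ f j)
    (h : Tendsto (fun j => f j ^ k) atTop (𝓝 0)) : Tendsto f atTop (𝓝 0) := by
  rw [Metric.tendsto_atTop] at h ⊢
  intro ε hε
  obtain ⟨N, hN⟩ := h (ε ^ k) (by positivity)
  refine ⟨N, fun j hj => ?_⟩
  have := hN j hj
  rw [Real.dist_eq, sub_zero] at this ⊢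
  rw [abs_of_nonneg (pow_nonneg (hf j) k)] at this
  rw [abs_of_nonneg (hf j)]
  exact lt_of_pow_lt_pow_left₀ k hε.le this

lemma Hyp.q_ge (h : Hyp F n m lam) (B : ℝ) : ∀ᶠ j in atTop, B ≤ (Fintype.card (F j) : ℝ) :=
  h.hq.eventually_ge_atTop B

lemma Hyp.inv (h : Hyp F n m lam) : Tendsto (fun j => ((Fintype.card (F j) : ℝ))⁻¹) atTop (𝓝 0) :=
  tendsto_inv_atTop_zero.comp h.hq

lemma Hyp.m_div (h : Hyp F n m lam) : Tendsto (fun j => (m j : ℝ) / Fintype.card (F j)) atTop (𝓝 0) := by
  apply tendsto_zero_of_pow (k := 2) two_ne_zero (fun j => by positivity)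
  have h1 : Tendsto (fun j => 2 * (((n j).choose (m j) : ℝ) / Fintype.card (F j)) *
      ((Fintype.card (F j) : ℝ))⁻¹) atTop (𝓝 (2 * lam * 0)) := (h.hL.const_mul 2).mul h.inv
  rw [mul_zero] at h1
  refine squeeze_zero' (Eventually.of_forall fun j => by positivity) ?_ h1
  filter_upwards [h.hm, h.q_ge 3] with j hj hq
  have hq0 : (0:ℝ) < Fintype.card (F j) := by linarith
  have e1 : ((m j : ℕ) : ℝ) ^ 2 ≤ 2 * ((n j).choose (m j) : ℝ) := by
    have := (sq_le_two_pow (m j)).trans (Nat.mul_le_mul_left 2 (two_pow_le_choose hj.2))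
    exact_mod_cast this
  rw [div_pow]
  calc (m j : ℝ) ^ 2 / (Fintype.card (F j) : ℝ) ^ 2
      ≤ (2 * ((n j).choose (m j) : ℝ)) / (Fintype.card (F j) : ℝ) ^ 2 :=
        div_le_div_of_nonneg_right e1 (by positivity)
    _ = _ := by field_simp

lemma Hyp.Lam_lim (h : Hyp F n m lam) : Tendsto (fun j => Lam (F j) (n j) (m j)) atTop (𝓝 lam) := by
  have h1 : Tendsto (fun j => ((n j).choose (m j) : ℝ) / Fintype.card (F j) *
      (1 - m j / Fintype.card (F j))) atTop (𝓝 (lam * (1 - 0))) :=
    h.hL.mul (tendsto_const_nhds.sub h.m_div)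
  rw [sub_zero, mul_one] at h1
  have h2 : Tendsto (fun j => ((n j).choose (m j) : ℝ) / Fintype.card (F j) *
      (1 - 2 * ((Fintype.card (F j) : ℝ))⁻¹)⁻¹) atTop (𝓝 (lam * (1 - 2 * 0)⁻¹)) :=
    h.hL.mul ((tendsto_const_nhds.sub (h.inv.const_mul 2)).inv₀ (by norm_num))
  rw [mul_zero, sub_zero, inv_one, mul_one] at h2
  refine tendsto_of_tendsto_of_tendsto_of_le_of_le' h1 h2 ?_ ?_
  · filter_upwards [h.hm, h.q_ge 3] with j hj hq
    exact Lam_ge hj.1 hq
  · filter_upwards [h.hm, h.q_ge 3] with j hj hq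
    refine (Lam_le hj.2 hq).trans (le_of_eq ?_)
    have hq0 : (Fintype.card (F j) : ℝ) ≠ 0 := by linarith
    have hq2 : (Fintype.card (F j) : ℝ) - 2 ≠ 0 := by linarith
    have e : 1 - 2 * ((Fintype.card (F j) : ℝ))⁻¹ = ((Fintype.card (F j) : ℝ) - 2) / Fintype.card (F j) := by
      field_simp
    rw [e, inv_div]
    field_simp

lemma Hyp.cpr_lim (h : Hyp F n m lam) : Tendsto (fun j => cpr (F j) (n j) (m j)) atTop (𝓝 0) := by
  have h1 : Tendsto (fun j => 4 * (((n j).choose (m j) : ℝ) / Fintype.card (F j)) *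
      ((Fintype.card (F j) : ℝ))⁻¹) atTop (𝓝 (4 * lam * 0)) := (h.hL.const_mul 4).mul h.inv
  rw [mul_zero] at h1
  refine squeeze_zero' (Eventually.of_forall fun j => by unfold cpr; positivity) ?_ h1
  filter_upwards [h.hm, h.q_ge 3] with j hj hq
  have hq0 : (0:ℝ) < Fintype.card (F j) := by linarith
  refine (cpr_le (by omega) hq).trans ?_
  have e1 : (Fintype.card (F j) : ℝ) / 2 ≤ Fintype.card (F j) - 1 := by linarith
  calc ((n j).choose (m j) : ℝ) / ((Fintype.card (F j) : ℝ) - 1) ^ 2
      ≤ ((n j).choose (m j) : ℝ) / ((Fintype.card (F j) : ℝ) / 2) ^ 2 := by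
        apply div_le_div_of_nonneg_left (by positivity) (by positivity)
        exact pow_le_pow_left₀ (by positivity) e1 2
    _ = _ := by field_simp; ring

/-- `knr` switched off when `m = 1` -/
def kn' (F : Type) [Field F] [Fintype F] [DecidableEq F] (n t m : ℕ) : ℝ :=
  if m = 1 then 0 else knr F n t m

lemma kn'_nonneg (F : Type) [Field F] [Fintype F] [DecidableEq F] (n t m : ℕ) : 0 ≤ kn' F n t m := by
  unfold kn'
  split_ifs
  · exact le_rfl
  · exact knr_nonneg

lemma Hyp.kn_lim (h : Hyp F n m lam) (t : ℕ) :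
    Tendsto (fun j => kn' (F j) (n j) t (m j)) atTop (𝓝 0) := by
  apply tendsto_zero_of_pow (k := 8) (by norm_num) (fun j => kn'_nonneg _ _ _ _)
  have h1 : Tendsto (fun j => 2 ^ 25 * (((n j).choose (m j) : ℝ) / Fintype.card (F j)) ^ 13 *
      ((Fintype.card (F j) : ℝ))⁻¹) atTop (𝓝 (2 ^ 25 * lam ^ 13 * 0)) :=
    ((h.hL.pow 13).const_mul (2 ^ 25)).mul h.inv
  rw [mul_zero] at h1
  refine squeeze_zero' (Eventually.of_forall fun j => pow_nonneg (kn'_nonneg _ _ _ _) 8) ?_ h1
  have hL1 : ∀ᶠ j in atTop, ((n j).choose (m j) : ℝ) / Fintype.card (F j) ≤ lam + 1 :=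
    h.hL.eventually_le_const (by linarith)
  filter_upwards [h.hm, h.q_ge 3, h.q_ge (2 ^ 17 * (lam + 1) ^ 4),
    h.q_ge ((16 * 2 ^ (t + 1)) ^ (4 * (t + 1))), hL1] with j hj hq hqL hqt hLj
  have hq0 : (0:ℝ) < Fintype.card (F j) := by linarith
  unfold kn'
  split_ifs with hm1
  · rw [zero_pow (by norm_num)]; positivity
  · have hne : 4 * (t + 1) ≠ 0 := by omega
    have hz := Real.rpow_inv_natCast_pow hq0.le hne
    have hz2 : 16 * 2 ^ (t + 1) ≤ (Fintype.card (F j) : ℝ) ^ ((((4 * (t + 1) : ℕ) : ℝ))⁻¹) := by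
      have e : (16 * 2 ^ (t + 1) : ℝ) ^ (4 * (t + 1)) ≤
          ((Fintype.card (F j) : ℝ) ^ ((((4 * (t + 1) : ℕ) : ℝ))⁻¹)) ^ (4 * (t + 1)) := by
        rw [hz]; exact hqt
      exact le_of_pow_le_pow_left₀ hne (Real.rpow_nonneg hq0.le _) e
    refine (knr_le hz hz2 (by omega) hj.2 hq ?_).trans (le_of_eq (div_eq_mul_inv _ _))
    have hL0 : 0 ≤ ((n j).choose (m j) : ℝ) / Fintype.card (F j) := by positivity
    calc 2 ^ 17 * (((n j).choose (m j) : ℝ) / Fintype.card (F j)) ^ 4 ≤ 2 ^ 17 * (lam + 1) ^ 4 :=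
          mul_le_mul_of_nonneg_left (pow_le_pow_left₀ hL0 hLj 4) (by positivity)
      _ ≤ (Fintype.card (F j) : ℝ) := hqL
      _ ≤ (Fintype.card (F j) : ℝ) ^ 2 := by nlinarith

lemma Hyp.br_lim (h : Hyp F n m lam) (s : ℕ) :
    Tendsto (fun j => br (F j) (n j) (m j) s) atTop (𝓝 0) := by
  rcases lt_or_ge s 2 with hs | hs
  · have : ∀ j, br (F j) (n j) (m j) s = 0 := by
      intro j
      unfold br
      rw [Bad_small hs]; simp
    simp_rw [this]
    exact tendsto_const_nhds
  · have h1 : Tendsto (fun j => cpr (F j) (n j) (m j) * Lam (F j) (n j) (m j) ^ (s - 2) +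
        ∑ t ∈ Icc 2 s, kn' (F j) (n j) t (m j) * Lam (F j) (n j) (m j) ^ (s - t)) atTop
        (𝓝 (0 * lam ^ (s - 2) + ∑ t ∈ Icc 2 s, 0 * lam ^ (s - t))) := by
      apply Tendsto.add
      · exact h.cpr_lim.mul (h.Lam_lim.pow _)
      · apply tendsto_finsetSum
        intro t _
        exact (h.kn_lim t).mul (h.Lam_lim.pow _)
    simp only [zero_mul, sum_const_zero, add_zero] at h1
    refine squeeze_zero' (Eventually.of_forall fun j => by unfold br; positivity) ?_ h1
    refine Eventually.of_forall fun j => ?_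
    by_cases hm1 : m j = 1
    · have : br (F j) (n j) (m j) s = 0 := by
        unfold br
        rw [hm1, Bad_one]; simp
      rw [this]
      apply add_nonneg
      · apply mul_nonneg (by unfold cpr; positivity) (pow_nonneg Lam_nonneg _)
      · exact sum_nonneg fun t _ => mul_nonneg (kn'_nonneg _ _ _ _) (pow_nonneg Lam_nonneg _)
    · refine (br_le hs).trans (le_of_eq ?_)
      congr 1
      apply sum_congr rfl
      intro t _
      unfold kn'
      rw [if_neg hm1]

lemma Hyp.choose_lim (h : Hyp F n m lam) (r : ℕ) :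
    Tendsto (fun j => ((P (F j) (n j) (m j)).card.choose r : ℝ) / ((Fintype.card (F j) : ℝ) ^ (m j)) ^ r)
      atTop (𝓝 (lam ^ r / r.factorial)) := by
  have hx : Tendsto (fun j => ((Fintype.card (F j) : ℝ) ^ (m j))⁻¹) atTop (𝓝 0) := by
    refine squeeze_zero' (Eventually.of_forall fun j => by positivity) ?_ h.inv
    filter_upwards [h.hm, h.q_ge 3] with j hj hq
    apply inv_anti₀ (by linarith)
    calc (Fintype.card (F j) : ℝ) = (Fintype.card (F j) : ℝ) ^ 1 := (pow_one _).symm
      _ ≤ _ := pow_le_pow_right₀ (by linarith) hj.1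
  have h1 : ∀ j, ((P (F j) (n j) (m j)).card.choose r : ℝ) / ((Fintype.card (F j) : ℝ) ^ (m j)) ^ r =
      (∏ i ∈ range r, (Lam (F j) (n j) (m j) - i * ((Fintype.card (F j) : ℝ) ^ (m j))⁻¹)) / r.factorial := by
    intro j
    have hq0 : (0:ℝ) < (Fintype.card (F j) : ℝ) := by exact_mod_cast Fintype.card_pos
    have e1 : (((P (F j) (n j) (m j)).card.descFactorial r : ℕ) : ℝ) =
        ∏ i ∈ range r, (((P (F j) (n j) (m j)).card : ℝ) - i) := by
      rw [← descPochhammer_eval_eq_descFactorial, descPochhammer_eval_eq_prod_range]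
    have e2 : ((P (F j) (n j) (m j)).card.choose r : ℝ) =
        (((P (F j) (n j) (m j)).card.descFactorial r : ℕ) : ℝ) / r.factorial := by
      rw [Nat.descFactorial_eq_factorial_mul_choose]
      push_cast
      field_simp
    rw [e2, e1]
    have e3 : ∀ i ∈ range r, (Lam (F j) (n j) (m j) - i * ((Fintype.card (F j) : ℝ) ^ (m j))⁻¹) =
        (((P (F j) (n j) (m j)).card : ℝ) - i) / (Fintype.card (F j) : ℝ) ^ (m j) := by
      intro i _
      unfold Lam
      field_simp
    rw [prod_congr rfl e3, prod_div_distrib, prod_const, card_range]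
    ring
  simp_rw [h1]
  apply Tendsto.div_const
  have h2 : lam ^ r = ∏ i ∈ range r, (lam - i * 0) := by simp
  rw [h2]
  apply tendsto_finsetProd
  intro i _
  exact h.Lam_lim.sub (hx.const_mul _)

lemma Hyp.er_lim (h : Hyp F n m lam) (r : ℕ) :
    Tendsto (fun j => er (F j) (n j) (m j) r) atTop (𝓝 (lam ^ r / r.factorial)) := by
  have h1 : Tendsto (fun j => ((P (F j) (n j) (m j)).card.choose r : ℝ) /
      ((Fintype.card (F j) : ℝ) ^ (m j)) ^ r - ∑ s ∈ range r, br (F j) (n j) (m j) s *
      Lam (F j) (n j) (m j) ^ (r - s)) atTop (𝓝 (lam ^ r / r.factorial - ∑ s ∈ range r, 0 * lam ^ (r - s))) := by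
    apply (h.choose_lim r).sub
    apply tendsto_finsetSum
    intro s _
    exact (h.br_lim s).mul (h.Lam_lim.pow _)
  simp only [zero_mul, sum_const_zero, sub_zero] at h1
  exact tendsto_of_tendsto_of_tendsto_of_le_of_le h1 (h.choose_lim r) (fun j => dep_le r) (fun j => er_le r)

lemma partial_lim (lam : ℝ) : Tendsto (fun R : ℕ => ∑ r ∈ range R, (-1:ℝ) ^ r * (lam ^ r / r.factorial))
    atTop (𝓝 (Real.exp (-lam))) := by
  have h := (NormedSpace.expSeries_div_hasSum_exp (-lam)).tendsto_sum_nat
  rw [← Real.exp_eq_exp_ℝ] at h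
  convert h using 2 with R
  apply sum_congr rfl
  intro r _
  rw [neg_pow]; ring

lemma Hyp.Pi0_lim (h : Hyp F n m lam) :
    Tendsto (fun j => Pi0 (F j) (n j) (m j)) atTop (𝓝 (Real.exp (-lam))) := by
  have herr : ∀ R : ℕ, Tendsto (fun j => 2 * ∑ s ∈ range (2 * R + 1), 2 ^ s * br (F j) (n j) (m j) s)
      atTop (𝓝 0) := by
    intro R
    have : Tendsto (fun j => 2 * ∑ s ∈ range (2 * R + 1), 2 ^ s * br (F j) (n j) (m j) s)
      atTop (𝓝 (2 * ∑ s ∈ range (2 * R + 1), 2 ^ s * 0)) := by
      apply Tendsto.const_mul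
      apply tendsto_finsetSum
      intro s _
      exact (h.br_lim s).const_mul _
    simpa using this
  have hS : ∀ R : ℕ, Tendsto (fun j => ∑ r ∈ range (R + 1), (-1:ℝ) ^ r * er (F j) (n j) (m j) r)
      atTop (𝓝 (∑ r ∈ range (R + 1), (-1:ℝ) ^ r * (lam ^ r / r.factorial))) := by
    intro R
    apply tendsto_finsetSum
    intro r _
    exact (h.er_lim r).const_mul _
  have hp := partial_lim lam
  rw [tendsto_order]
  constructor
  · intro a ha
    obtain ⟨R0, hR0⟩ := (hp.eventually_const_lt ha).exists_forall_of_atTop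
    have hR := hR0 (2 * R0 + 1 + 1) (by omega)
    have hlim := (hS (2 * R0 + 1)).sub (herr (2 * R0 + 1))
    rw [sub_zero] at hlim
    filter_upwards [hlim.eventually_const_lt hR] with j hj
    have hb := bonf (F := F j) (n := n j) (m := m j) (2 * R0 + 1)
    have e : (-1:ℝ) ^ (2 * R0 + 1) = -1 := by rw [pow_succ, pow_mul]; simp
    rw [e] at hb
    linarith
  · intro a ha
    obtain ⟨R0, hR0⟩ := (hp.eventually_lt_const ha).exists_forall_of_atTop
    have hR := hR0 (2 * R0 + 1) (by omega)
    have hlim := (hS (2 * R0)).add (herr (2 * R0))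
    rw [add_zero] at hlim
    filter_upwards [hlim.eventually_lt_const hR] with j hj
    have hb := bonf (F := F j) (n := n j) (m := m j) (2 * R0)
    have e : (-1:ℝ) ^ (2 * R0) = 1 := by rw [pow_mul]; simp
    rw [e] at hb
    linarith

end Lim

section Codes

variable {F : Type} [Field F] [Fintype F] [DecidableEq F] {n : ℕ}

/-- minimum Hamming distance of a linear code -/
def minDist (C : Submodule F (Fin n → F)) : ℕ :=
  sInf {d | ∃ x ∈ C, ∃ y ∈ C, x ≠ y ∧ hammingDist x y = d}

/-- The probability that a uniformly random `k`-dimensional subspace of `F^n` is MDS, i.e. has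
minimum distance `n - k + 1`. -/
def probMDS (F : Type) [Field F] [Fintype F] [DecidableEq F] (n k : ℕ) : ℝ :=
  (Nat.card {C : Submodule F (Fin n → F) // Module.finrank F C = k ∧ minDist C = n - k + 1} : ℝ) /
    Nat.card {C : Submodule F (Fin n → F) // Module.finrank F C = k}

/-- all nonzero words of `C` have weight at least `w` -/
def MinW (C : Submodule F (Fin n → F)) (w : ℕ) : Prop := ∀ x ∈ C, x ≠ 0 → w ≤ hammingNorm x

lemma minDist_iff {C : Submodule F (Fin n → F)} {k : ℕ} (hC : Module.finrank F C = k) (hk : 1 ≤ k)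
    (hkn : k ≤ n) : minDist C = n - k + 1 ↔ MinW C (n - k + 1) := by
  constructor
  · intro h x hx hx0
    rw [← h]
    apply Nat.sInf_le
    exact ⟨x, hx, 0, C.zero_mem, hx0, hammingDist_zero_right x⟩
  · intro h
    apply le_antisymm
    · -- Singleton
      let f : C →ₗ[F] (Fin (k - 1) → F) :=
        LinearMap.pi (fun i => (LinearMap.proj (⟨i.1, by omega⟩ : Fin n)).comp C.subtype)
      have hker : LinearMap.ker f ≠ ⊥ := by
        apply LinearMap.ker_ne_bot_of_finrank_lt
        rw [Module.finrank_fin_fun, hC]; omega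
      obtain ⟨x, hx, hx0⟩ := Submodule.exists_mem_ne_zero_of_ne_bot hker
      have hx1 : (x : Fin n → F) ≠ 0 := by simpa using hx0
      have hw : hammingNorm (x : Fin n → F) ≤ n - k + 1 := by
        have hsub : supp (x : Fin n → F) ⊆ univ.filter (fun i : Fin n => ¬ i.1 < k - 1) := by
          intro i hi
          simp only [supp, mem_filter, mem_univ, true_and] at hi ⊢
          intro hlt
          apply hi
          rw [LinearMap.mem_ker] at hx
          have := congrFun hx ⟨i.1, hlt⟩
          simpa [f] using this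
        rw [hn_eq]
        refine (card_le_card hsub).trans ?_
        rw [filter_not, card_sdiff_of_subset (filter_subset _ _), card_univ, Fintype.card_fin]
        have : (univ.filter (fun i : Fin n => i.1 < k - 1)).card = k - 1 := by
          rw [Fin.card_filter_val_lt]; omega
        rw [this]; omega
      refine le_trans ?_ hw
      apply Nat.sInf_le
      exact ⟨x, x.2, 0, C.zero_mem, hx1, hammingDist_zero_right _⟩
    · apply le_csInf
      · have : C ≠ ⊥ := by
          rintro rfl
          rw [finrank_bot] at hC; omega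
        obtain ⟨x, hx, hx0⟩ := Submodule.exists_mem_ne_zero_of_ne_bot this
        exact ⟨_, x, hx, 0, C.zero_mem, hx0, rfl⟩
      · rintro d ⟨x, hx, y, hy, hxy, rfl⟩
        rw [hammingDist_eq_hammingNorm]
        exact h _ (C.add_mem (C.neg_mem hx) hy) (fun h0 => hxy (neg_add_eq_zero.mp h0))

/-- the dot product form -/
def dotB (F : Type) [Field F] (n : ℕ) : LinearMap.BilinForm F (Fin n → F) := Matrix.toBilin' 1

lemma dotB_apply (x y : Fin n → F) : dotB F n x y = dotProduct x y := by
  unfold dotB
  rw [Matrix.toBilin'_apply', Matrix.one_mulVec]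

lemma dotB_nondeg : (dotB F n).Nondegenerate := by
  unfold dotB
  apply LinearMap.BilinForm.nondegenerate_toBilin'_of_det_ne_zero'
  simp

lemma dotB_refl : (dotB F n).IsRefl := by
  intro x y h
  rw [dotB_apply] at h ⊢
  rw [dotProduct_comm]; exact h

/-- dual code -/
def perp (C : Submodule F (Fin n → F)) : Submodule F (Fin n → F) := (dotB F n).orthogonal C

lemma mem_perp {C : Submodule F (Fin n → F)} {x : Fin n → F} :
    x ∈ perp C ↔ ∀ y ∈ C, dotProduct y x = 0 := by
  unfold perp
  rw [LinearMap.BilinForm.mem_orthogonal_iff]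
  simp_rw [dotB_apply]

lemma finrank_perp (C : Submodule F (Fin n → F)) : Module.finrank F (perp C) = n - Module.finrank F C := by
  unfold perp
  rw [LinearMap.BilinForm.finrank_orthogonal dotB_nondeg, Module.finrank_fin_fun]

lemma perp_perp (C : Submodule F (Fin n → F)) : perp (perp C) = C :=
  LinearMap.BilinForm.orthogonal_orthogonal dotB_nondeg dotB_refl C

lemma dual_aux {C : Submodule F (Fin n → F)} {k : ℕ} (hC : Module.finrank F C = k)
    (hkn : k ≤ n) (h : MinW C (n - k + 1)) : MinW (perp C) (k + 1) := by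
  intro y hy hy0
  by_contra hcon
  push Not at hcon
  have hw : (supp y).card ≤ k := by rw [← hn_eq]; omega
  obtain ⟨S, hS, hSk⟩ := exists_superset_card_eq hw (by simpa using hkn : k ≤ Fintype.card (Fin n))
  let f : C →ₗ[F] (S → F) := LinearMap.pi (fun i => (LinearMap.proj (i : Fin n)).comp C.subtype)
  have hinj : Function.Injective f := by
    rw [← LinearMap.ker_eq_bot, LinearMap.ker_eq_bot']
    intro x hx
    by_contra hx0
    have hx1 : (x : Fin n → F) ≠ 0 := by simpa using hx0
    have h1 := h x x.2 hx1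
    have hsub : supp (x : Fin n → F) ⊆ univ \ S := by
      intro i hi
      rw [Finset.mem_sdiff]
      refine ⟨Finset.mem_univ _, fun hiS => ?_⟩
      simp only [supp, mem_filter, mem_univ, true_and] at hi
      apply hi
      have := congrFun hx ⟨i, hiS⟩
      simpa [f] using this
    have h2 := card_le_card hsub
    rw [card_sdiff_of_subset (subset_univ _), card_univ, Fintype.card_fin, hSk, ← hn_eq] at h2
    omega
  have hsurj : Function.Surjective f := by
    rw [← LinearMap.injective_iff_surjective_of_finrank_eq_finrank]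
    · exact hinj
    · rw [hC, Module.finrank_pi, Fintype.card_coe, hSk]
  obtain ⟨j, hj⟩ : ∃ j, y j ≠ 0 := by
    by_contra hcon2
    push Not at hcon2
    exact hy0 (funext hcon2)
  have hjS : j ∈ S := hS (by simp [supp, hj])
  obtain ⟨x, hx⟩ := hsurj (Pi.single ⟨j, hjS⟩ 1)
  have hdot := mem_perp.mp hy x x.2
  have hval : dotProduct (x : Fin n → F) y = y j := by
    unfold dotProduct
    rw [sum_eq_single j]
    · have := congrFun hx ⟨j, hjS⟩
      have h3 : (x : Fin n → F) j = 1 := by simpa [f] using this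
      rw [h3, one_mul]
    · intro i _ hij
      by_cases hiS : i ∈ S
      · have := congrFun hx ⟨i, hiS⟩
        have h3 : (x : Fin n → F) i = 0 := by
          have h4 : f x ⟨i, hiS⟩ = (x : Fin n → F) i := rfl
          rw [← h4, this, Pi.single_eq_of_ne]
          intro h5
          exact hij (congrArg Subtype.val h5)
        rw [h3, zero_mul]
      · have : y i = 0 := by
          by_contra h3
          exact hiS (hS (by simp [supp, h3]))
        rw [this, mul_zero]
    · intro h3; exact absurd (mem_univ _) h3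
  rw [hval] at hdot
  exact hj hdot

instance finSub : Finite (Submodule F (Fin n → F)) :=
  Finite.of_injective (fun C : Submodule F (Fin n → F) => (C : Set (Fin n → F))) SetLike.coe_injective

/-- number of codes with large minimum weight -/
def NC (F : Type) [Field F] [Fintype F] [DecidableEq F] (n k w : ℕ) : ℕ :=
  Nat.card {C : Submodule F (Fin n → F) // Module.finrank F C = k ∧ MinW C w}

/-- number of codes -/
def NA (F : Type) [Field F] (n k : ℕ) : ℕ :=
  Nat.card {C : Submodule F (Fin n → F) // Module.finrank F C = k}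

lemma probMDS_eq {k : ℕ} (hk : 1 ≤ k) (hkn : k ≤ n) :
    probMDS F n k = (NC F n k (n - k + 1) : ℝ) / NA F n k := by
  unfold probMDS NC NA
  congr 2
  apply Nat.card_congr
  apply Equiv.subtypeEquivRight
  intro C
  constructor
  · rintro ⟨h1, h2⟩
    exact ⟨h1, (minDist_iff h1 hk hkn).mp h2⟩
  · rintro ⟨h1, h2⟩
    exact ⟨h1, (minDist_iff h1 hk hkn).mpr h2⟩

lemma NA_dual {k : ℕ} (hkn : k ≤ n) : NA F n k = NA F n (n - k) := by
  unfold NA
  apply Nat.card_congr
  refine ⟨fun C => ⟨perp C.1, by rw [finrank_perp, C.2]⟩,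
    fun C => ⟨perp C.1, by rw [finrank_perp, C.2]; omega⟩, ?_, ?_⟩
  · intro C; exact Subtype.ext (perp_perp C.1)
  · intro C; exact Subtype.ext (perp_perp C.1)

lemma NC_dual {k : ℕ} (hkn : k ≤ n) : NC F n k (n - k + 1) = NC F n (n - k) (k + 1) := by
  unfold NC
  apply Nat.card_congr
  refine ⟨fun C => ⟨perp C.1, by rw [finrank_perp, C.2.1], dual_aux C.2.1 hkn C.2.2⟩,
    fun C => ⟨perp C.1, by rw [finrank_perp, C.2.1]; omega, ?_⟩, ?_, ?_⟩
  · have h := dual_aux (C := C.1) (k := n - k) C.2.1 (by omega)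
      (by rw [show n - (n - k) + 1 = k + 1 by omega]; exact C.2.2)
    exact h
  · intro C; exact Subtype.ext (perp_perp C.1)
  · intro C; exact Subtype.ext (perp_perp C.1)

lemma probMDS_dual {k : ℕ} (hk : 1 ≤ k) (hkn : k < n) : probMDS F n k = probMDS F n (n - k) := by
  rw [probMDS_eq hk hkn.le, probMDS_eq (by omega) (by omega), NC_dual hkn.le, NA_dual hkn.le]
  rw [show n - (n - k) + 1 = k + 1 by omega]

lemma exists_finrank_eq {m : ℕ} (hmn : m ≤ n) :
    ∃ C : Submodule F (Fin n → F), Module.finrank F C = m := by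
  have hli : LinearIndependent F (fun i : Fin m => Pi.basisFun F (Fin n) (Fin.castLE hmn i)) :=
    (Pi.basisFun F (Fin n)).linearIndependent.comp _ (Fin.castLE_injective hmn)
  refine ⟨Submodule.span F (Set.range (fun i : Fin m => Pi.basisFun F (Fin n) (Fin.castLE hmn i))), ?_⟩
  rw [finrank_span_eq_card hli, Fintype.card_fin]

/-- number of ordered bases of an `m`-dimensional space -/
def Lb (F : Type) [Fintype F] (m : ℕ) : ℕ := ∏ i : Fin m, (Fintype.card F ^ m - Fintype.card F ^ i.val)

lemma Lb_pos (m : ℕ) : 0 < Lb F m := by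
  unfold Lb
  apply prod_pos
  intro i _
  have h1 : 1 < Fintype.card F := Fintype.one_lt_card
  have : Fintype.card F ^ i.val < Fintype.card F ^ m := Nat.pow_lt_pow_right h1 i.2
  omega

lemma card_fiber {m : ℕ} (C : Submodule F (Fin n → F)) (hC : Module.finrank F C = m) :
    Nat.card {M : Fin m → Fin n → F // LinearIndependent F M ∧ Submodule.span F (Set.range M) = C} = Lb F m := by
  unfold Lb
  have h := card_linearIndependent (K := F) (V := C) (k := m) (by rw [hC])
  rw [hC] at h
  rw [← h]
  symm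
  let f : {s : Fin m → C // LinearIndependent F s} →
      {M : Fin m → Fin n → F // LinearIndependent F M ∧ Submodule.span F (Set.range M) = C} :=
    fun s => ⟨fun i => (s.1 i : Fin n → F), by
      have hli : LinearIndependent F (fun i => (s.1 i : Fin n → F)) :=
        s.2.map' C.subtype (Submodule.ker_subtype C)
      refine ⟨hli, ?_⟩
      apply Submodule.eq_of_le_of_finrank_eq
      · rw [Submodule.span_le]
        rintro _ ⟨i, rfl⟩
        exact (s.1 i).2
      · rw [finrank_span_eq_card hli, Fintype.card_fin, hC]⟩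
  apply Nat.card_congr
  apply Equiv.ofBijective f
  constructor
  · intro s s' e
    apply Subtype.ext
    ext i j
    have := congrArg (fun M => M.1 i j) e
    exact this
  · rintro ⟨M, hM, hMC⟩
    have hmem : ∀ i, M i ∈ C := fun i => by
      rw [← hMC]; exact Submodule.subset_span ⟨i, rfl⟩
    refine ⟨⟨fun i => ⟨M i, hmem i⟩, ?_⟩, ?_⟩
    · apply LinearIndependent.of_comp C.subtype
      exact hM
    · rfl

lemma card_total {m : ℕ} (p : Submodule F (Fin n → F) → Prop) :
    Nat.card {M : Fin m → Fin n → F // LinearIndependent F M ∧ p (Submodule.span F (Set.range M))} =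
      Nat.card {C : Submodule F (Fin n → F) // Module.finrank F C = m ∧ p C} * Lb F m := by
  classical
  let ι := {C : Submodule F (Fin n → F) // Module.finrank F C = m ∧ p C}
  have hfin : Fintype ι := Fintype.ofFinite _
  have e : {M : Fin m → Fin n → F // LinearIndependent F M ∧ p (Submodule.span F (Set.range M))} ≃
      Σ C : ι, {M : Fin m → Fin n → F // LinearIndependent F M ∧ Submodule.span F (Set.range M) = C.1} := by
    refine ⟨fun M => ⟨⟨Submodule.span F (Set.range M.1), ?_, M.2.2⟩, ⟨M.1, M.2.1, rfl⟩⟩,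
      fun x => ⟨x.2.1, x.2.2.1, by rw [x.2.2.2]; exact x.1.2.2⟩, ?_, ?_⟩
    · rw [finrank_span_eq_card M.2.1, Fintype.card_fin]
    · intro M; rfl
    · rintro ⟨⟨C, hC⟩, ⟨M, hM, hMC⟩⟩
      simp only at hMC
      subst hMC
      rfl
  rw [Nat.card_congr e, Nat.card_sigma, sum_congr rfl (fun C _ => card_fiber C.1 C.2.1), sum_const,
    card_univ, smul_eq_mul]
  congr 1
  exact (Nat.card_eq_fintype_card (α := ι)).symm

open scoped Classical in
lemma PM_empty_iff {m : ℕ} (M : Fin m → Fin n → F) :
    PM M = ∅ ↔ ∀ x, Van M x → x ≠ 0 → m + 1 ≤ hammingNorm x := by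
  unfold PM
  rw [filter_eq_empty_iff]
  constructor
  · intro h x hx hx0
    by_contra hcon
    obtain ⟨c, hc, hcx⟩ := exists_nz hx0
    exact h (mem_P.mpr ⟨hcx, by rw [hn_smul hc]; omega⟩) (hx.smul c)
  · intro h x hx hv
    rw [mem_P] at hx
    have := h x hv hx.1.ne_zero
    omega

lemma van_iff {m : ℕ} (M : Fin m → Fin n → F) (x : Fin n → F) :
    Van M x ↔ x ∈ perp (Submodule.span F (Set.range M)) := by
  rw [mem_perp]
  constructor
  · intro h y hy
    induction hy using Submodule.span_induction with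
    | mem y hy => obtain ⟨i, rfl⟩ := hy; exact h i
    | zero => simp
    | add a b _ _ ha hb => rw [add_dotProduct, ha, hb, add_zero]
    | smul c a _ ha => rw [smul_dotProduct, ha, smul_zero]
  · intro h i
    exact h _ (Submodule.subset_span ⟨i, rfl⟩)

lemma PM_empty_LI {m : ℕ} (hmn : m ≤ n) (M : Fin m → Fin n → F)
    (h : ∀ x, Van M x → x ≠ 0 → m + 1 ≤ hammingNorm x) : LinearIndependent F M := by
  let ext : (Fin m → F) →ₗ[F] (Fin n → F) :=
    { toFun := fun z j => if hj : j.1 < m then z ⟨j.1, hj⟩ else 0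
      map_add' := by
        intro a b; ext j; simp only [Pi.add_apply]; split_ifs <;> simp
      map_smul' := by
        intro c a; ext j; simp only [Pi.smul_apply, RingHom.id_apply, smul_eq_mul]; split_ifs <;> simp }
  let g : (Fin m → F) →ₗ[F] (Fin m → F) :=
    LinearMap.pi (fun i => (dotB F n (M i)).comp ext)
  have hg : ∀ z i, g z i = dotProduct (M i) (ext z) := by
    intro z i
    show dotB F n (M i) (ext z) = _
    rw [dotB_apply]
  have hinj : Function.Injective g := by
    rw [← LinearMap.ker_eq_bot, LinearMap.ker_eq_bot']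
    intro z hz
    by_contra hz0
    have hext : ext z ≠ 0 := by
      intro h0
      apply hz0
      ext i
      have := congrFun h0 ⟨i.1, by omega⟩
      simpa [ext] using this
    have hv : Van M (ext z) := by
      intro i
      rw [← hg, hz]; rfl
    have h1 := h _ hv hext
    have hsub : supp (ext z) ⊆ univ.filter (fun j : Fin n => j.1 < m) := by
      intro j hj
      simp only [supp, mem_filter, mem_univ, true_and] at hj ⊢
      by_contra hcon
      apply hj
      simp [ext, hcon]
    have h2 := card_le_card hsub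
    rw [Fin.card_filter_val_lt, ← hn_eq] at h2
    omega
  have hsurj : Function.Surjective g := LinearMap.injective_iff_surjective.mp hinj
  rw [Fintype.linearIndependent_iff]
  intro c hc i
  obtain ⟨z, hz⟩ := hsurj (Pi.single i 1)
  have h1 : ∑ l, c l * dotProduct (M l) (ext z) = 0 := by
    have h2 : dotProduct (∑ l, c l • M l) (ext z) = 0 := by rw [hc, zero_dotProduct]
    rw [sum_dotProduct] at h2
    simpa [smul_dotProduct] using h2
  have h3 : ∀ l, dotProduct (M l) (ext z) = if l = i then 1 else 0 := by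
    intro l
    rw [← hg, hz, Pi.single_apply]
  simp_rw [h3] at h1
  simpa using h1

lemma probMDS_half {m : ℕ} (hm : 1 ≤ m) (hmn : 2 * m ≤ n) :
    probMDS F n m * (Nat.card {M : Fin m → Fin n → F // LinearIndependent F M} : ℝ) =
      Pi0 F n m * ((Fintype.card F : ℝ) ^ n) ^ m := by
  classical
  have hq : (0:ℝ) < Fintype.card F := by exact_mod_cast Fintype.card_pos
  rw [probMDS_eq hm (by omega)]
  have h1 : Nat.card {M : Fin m → Fin n → F // LinearIndependent F M} = NA F n m * Lb F m := by
    have := card_total (F := F) (n := n) (m := m) (fun _ => True)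
    simpa [NA] using this
  have h2 : (univ.filter (fun M : Fin m → Fin n → F => PM M = ∅)).card = NC F n m (n - m + 1) * Lb F m := by
    unfold NC
    rw [← card_total, ← Fintype.card_subtype, ← Nat.card_eq_fintype_card]
    apply Nat.card_congr
    apply Equiv.subtypeEquivRight
    intro M
    rw [PM_empty_iff]
    constructor
    · intro h
      have hli := PM_empty_LI (by omega) M h
      refine ⟨hli, ?_⟩
      have hfr : Module.finrank F (Submodule.span F (Set.range M)) = m := by
        rw [finrank_span_eq_card hli, Fintype.card_fin]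
      have h3 : MinW (perp (Submodule.span F (Set.range M))) (n - (n - m) + 1) := by
        intro x hx hx0
        rw [show n - (n - m) + 1 = m + 1 by omega]
        exact h x ((van_iff M x).mpr hx) hx0
      have h4 := dual_aux (C := perp (Submodule.span F (Set.range M))) (k := n - m)
        (by rw [finrank_perp, hfr]) (by omega) h3
      rw [perp_perp] at h4
      exact h4
    · rintro ⟨hli, hw⟩ x hx hx0
      have hfr : Module.finrank F (Submodule.span F (Set.range M)) = m := by
        rw [finrank_span_eq_card hli, Fintype.card_fin]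
      exact dual_aux hfr (by omega) hw x ((van_iff M x).mp hx) hx0
  have hNA : 0 < NA F n m := by
    unfold NA
    rw [Nat.card_pos_iff]
    refine ⟨?_, inferInstance⟩
    obtain ⟨C, hC⟩ := exists_finrank_eq (F := F) (n := n) (m := m) (by omega)
    exact ⟨⟨C, hC⟩⟩
  have hLb := Lb_pos (F := F) m
  unfold Pi0
  rw [h1, h2, div_mul_cancel₀ _ (by positivity)]
  push_cast
  have : (NA F n m : ℝ) ≠ 0 := by exact_mod_cast hNA.ne'
  field_simp

end Codes

section Final

variable {F : Type} [Field F] [Fintype F] [DecidableEq F] {n : ℕ}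

lemma prod_ge {k : ℕ} (f : ℕ → ℝ) (h0 : ∀ i < k, 0 ≤ f i) (h1 : ∀ i < k, f i ≤ 1) :
    1 - ∑ i ∈ range k, f i ≤ ∏ i ∈ range k, (1 - f i) := by
  induction k with
  | zero => simp
  | succ k ih =>
    have ih' := ih (fun i hi => h0 i (by omega)) (fun i hi => h1 i (by omega))
    rw [sum_range_succ, prod_range_succ]
    have hk0 := h0 k (by omega)
    have hk1 := h1 k (by omega)
    have hs : 0 ≤ ∑ i ∈ range k, f i := sum_nonneg fun i hi => h0 i (by rw [mem_range] at hi; omega)
    have h2 : (1 - ∑ i ∈ range k, f i) * (1 - f k) ≤ (∏ i ∈ range k, (1 - f i)) * (1 - f k) :=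
      mul_le_mul_of_nonneg_right ih' (by linarith)
    nlinarith

lemma card_LI_eq {m : ℕ} (hmn : m ≤ n) :
    (Nat.card {M : Fin m → Fin n → F // LinearIndependent F M} : ℝ) / ((Fintype.card F : ℝ) ^ n) ^ m =
      ∏ i ∈ range m, (1 - (Fintype.card F : ℝ) ^ i / (Fintype.card F : ℝ) ^ n) := by
  have hq : (0:ℝ) < Fintype.card F := by exact_mod_cast Fintype.card_pos
  have h := card_linearIndependent (K := F) (V := Fin n → F) (k := m)
    (by rw [Module.finrank_fin_fun]; exact hmn)
  rw [Module.finrank_fin_fun] at h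
  rw [h, Finset.prod_range]
  have hc : ((Fintype.card F : ℝ) ^ n) ^ m = ∏ _i : Fin m, (Fintype.card F : ℝ) ^ n := by
    rw [prod_const, card_univ, Fintype.card_fin]
  rw [hc]
  push_cast
  rw [← prod_div_distrib]
  apply prod_congr rfl
  intro i _
  have hle : Fintype.card F ^ i.val ≤ Fintype.card F ^ n :=
    Nat.pow_le_pow_right Fintype.card_pos (by omega)
  rw [Nat.cast_sub hle]
  push_cast
  rw [sub_div, div_self (by positivity)]

lemma card_LI_le {m : ℕ} (hmn : m ≤ n) :
    (Nat.card {M : Fin m → Fin n → F // LinearIndependent F M} : ℝ) / ((Fintype.card F : ℝ) ^ n) ^ m ≤ 1 := by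
  rw [card_LI_eq hmn]
  have hq : (1:ℝ) ≤ Fintype.card F := by exact_mod_cast Fintype.card_pos
  apply prod_le_one
  · intro i hi
    rw [mem_range] at hi
    have : (Fintype.card F : ℝ) ^ i / (Fintype.card F : ℝ) ^ n ≤ 1 := by
      rw [div_le_one (by positivity)]
      exact pow_le_pow_right₀ hq (by omega)
    linarith
  · intro i _
    have : 0 ≤ (Fintype.card F : ℝ) ^ i / (Fintype.card F : ℝ) ^ n := by positivity
    linarith

lemma card_LI_ge {m : ℕ} (hmn : 2 * m ≤ n) (hm : 1 ≤ m) (hq2 : (2:ℝ) ≤ Fintype.card F) :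
    1 - ((Fintype.card F : ℝ))⁻¹ ≤
    (Nat.card {M : Fin m → Fin n → F // LinearIndependent F M} : ℝ) / ((Fintype.card F : ℝ) ^ n) ^ m := by
  rw [card_LI_eq (by omega)]
  set q : ℝ := (Fintype.card F : ℝ) with hqd
  have hq0 : 0 < q := by linarith
  have hq1 : 1 ≤ q := by linarith
  refine le_trans ?_ (prod_ge (fun i => q ^ i / q ^ n) (fun i _ => by positivity) (fun i hi => by
    rw [div_le_one (by positivity)]
    exact pow_le_pow_right₀ hq1 (by omega)))
  have h1 : ∑ i ∈ range m, q ^ i / q ^ n ≤ ∑ i ∈ range m, (q⁻¹) / q ^ m := by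
    apply sum_le_sum
    intro i hi
    rw [mem_range] at hi
    rw [div_le_div_iff₀ (by positivity) (by positivity)]
    have e1 : q ^ i * q ^ m ≤ q ^ (n - 1) := by
      rw [← pow_add]
      exact pow_le_pow_right₀ hq1 (by omega)
    have e2 : q⁻¹ * q ^ n = q ^ (n - 1) := by
      obtain ⟨k, rfl⟩ : ∃ k, n = k + 1 := ⟨n - 1, by omega⟩
      rw [pow_succ, Nat.add_sub_cancel]
      field_simp
    rw [e2]; exact e1
  rw [sum_const, card_range, nsmul_eq_mul] at h1
  have h2 : (m:ℝ) * (q⁻¹ / q ^ m) ≤ q⁻¹ := by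
    have h3 : (m:ℝ) ≤ q ^ m := by
      calc (m:ℝ) ≤ 2 ^ m := by exact_mod_cast (Nat.lt_two_pow_self (n := m)).le
        _ ≤ q ^ m := pow_le_pow_left₀ (by norm_num) hq2 m
    rw [mul_div_assoc', div_le_iff₀ (by positivity)]
    rw [mul_comm]
    exact mul_le_mul_of_nonneg_left h3 (by positivity)
  linarith

lemma probMDS_nonneg {k : ℕ} : 0 ≤ probMDS F n k := by unfold probMDS; positivity

end Final

section Final2

variable {F : ℕ → Type} [∀ j, Field (F j)] [∀ j, Fintype (F j)] [∀ j, DecidableEq (F j)]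
  {n m : ℕ → ℕ} {lam : ℝ}

lemma Hyp.prob_lim (h : Hyp F n m lam) :
    Tendsto (fun j => probMDS (F j) (n j) (m j)) atTop (𝓝 (Real.exp (-lam))) := by
  have h1 : Tendsto (fun j => (Nat.card {M : Fin (m j) → Fin (n j) → F j // LinearIndependent (F j) M} : ℝ) /
      ((Fintype.card (F j) : ℝ) ^ (n j)) ^ (m j)) atTop (𝓝 1) := by
    have h2 : Tendsto (fun j => 1 - ((Fintype.card (F j) : ℝ))⁻¹) atTop (𝓝 (1 - 0)) :=
      tendsto_const_nhds.sub h.inv
    rw [sub_zero] at h2
    refine tendsto_of_tendsto_of_tendsto_of_le_of_le' h2 tendsto_const_nhds ?_ ?_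
    · filter_upwards [h.hm, h.q_ge 3] with j hj hq
      exact card_LI_ge hj.2 hj.1 (by linarith)
    · filter_upwards [h.hm] with j hj
      exact card_LI_le (by omega)
  have h3 := h.Pi0_lim.div h1 one_ne_zero
  rw [div_one] at h3
  refine h3.congr' ?_
  filter_upwards [h.hm, h.q_ge 3] with j hj hq
  have hq0 : (0:ℝ) < Fintype.card (F j) := by linarith
  have h4 := probMDS_half (F := F j) hj.1 hj.2
  have h5 := card_LI_ge (F := F j) hj.2 hj.1 (by linarith)
  have h6 : 0 < 1 - ((Fintype.card (F j) : ℝ))⁻¹ := by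
    have : ((Fintype.card (F j) : ℝ))⁻¹ < 1 := inv_lt_one_of_one_lt₀ (by linarith)
    linarith
  have h7 : (0:ℝ) < (Nat.card {M : Fin (m j) → Fin (n j) → F j // LinearIndependent (F j) M} : ℝ) /
      ((Fintype.card (F j) : ℝ) ^ (n j)) ^ (m j) := lt_of_lt_of_le h6 h5
  show Pi0 (F j) (n j) (m j) / _ = probMDS (F j) (n j) (m j)
  rw [div_eq_iff h7.ne', mul_div_assoc', h4]
  field_simp

end Final2

/-- **Poisson limit for the probability that a random linear code is MDS.** -/
theorem result (lam : ℝ) (hlam : 0 < lam) (n k : ℕ → ℕ) (F : ℕ → Type) [∀ j, Field (F j)]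
    [∀ j, Fintype (F j)] [∀ j, DecidableEq (F j)]
    (hk : ∀ j, 1 ≤ k j ∧ k j ≤ n j)
    (hn : Tendsto n atTop atTop)
    (hq : Tendsto (fun j => Fintype.card (F j)) atTop atTop)
    (hlim : Tendsto (fun j => ((n j).choose (k j) : ℝ) / Fintype.card (F j)) atTop (𝓝 lam)) :
    Tendsto (fun j => probMDS (F j) (n j) (k j)) atTop (𝓝 (Real.exp (-lam))) := by
  have hqR : Tendsto (fun j => (Fintype.card (F j) : ℝ)) atTop atTop :=
    tendsto_natCast_atTop_atTop.comp hq
  have hinv : Tendsto (fun j => ((Fintype.card (F j) : ℝ))⁻¹) atTop (𝓝 0) :=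
    tendsto_inv_atTop_zero.comp hqR
  have hne : ∀ᶠ j in atTop, k j < n j := by
    have h1 : ∀ᶠ j in atTop, lam / 2 < ((n j).choose (k j) : ℝ) / Fintype.card (F j) :=
      hlim.eventually_const_lt (by linarith)
    have h2 : ∀ᶠ j in atTop, ((Fintype.card (F j) : ℝ))⁻¹ < lam / 2 :=
      hinv.eventually_lt_const (by linarith)
    filter_upwards [h1, h2] with j hj1 hj2
    rcases lt_or_eq_of_le (hk j).2 with h | h
    · exact h
    · exfalso
      rw [h, Nat.choose_self, Nat.cast_one, one_div] at hj1
      linarith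
  let m : ℕ → ℕ := fun j => min (k j) (n j - k j)
  have hH : Hyp F n m lam := by
    refine ⟨hlam, ?_, hqR, ?_⟩
    · filter_upwards [hne] with j hj
      have := (hk j).1
      simp only [m]
      omega
    · refine hlim.congr fun j => ?_
      simp only [m]
      rcases le_total (k j) (n j - k j) with h | h
      · rw [min_eq_left h]
      · rw [min_eq_right h, Nat.choose_symm (hk j).2]
  refine hH.prob_lim.congr' ?_
  filter_upwards [hne] with j hj
  simp only [m]
  rcases le_total (k j) (n j - k j) with h | h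
  · rw [min_eq_left h]
  · rw [min_eq_right h, ← probMDS_dual (hk j).1 hj]


end

end Pool.Agent.Results.MP_498a73_pr.MDSPoisson
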